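import Mathlib

set_option autoImplicit false

/-! Gradings given by projections; definitions. -/

namespace Pool.Agent.TGr

/-- rank of a linear map -/
noncomputable def rk {k X Y : Type} [Field k] [AddCommGroup X] [Module k X] [AddCommGroup Y]
    [Module k Y] (f : X →ₗ[k] Y) : ℕ := Module.finrank k (LinearMap.range f)

/-- A grading of a `k`-space by the integers, given by its projections (used for
finite-dimensional spaces only). -/
structure Gr (k : Type) [Field k] (M : Type) [AddCommGroup M] [Module k M] where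
  /-- the projections -/
  pr : ℤ → M →ₗ[k] M
  same : ∀ i x, pr i (pr i x) = pr i x
  diff : ∀ i j x, i ≠ j → pr i (pr j x) = 0
  sep : ∀ x, (∀ i, pr i x = 0) → x = 0

/-- A connected grading of an algebra with top degree at most `s` and without elements in the
degrees strictly between `0` and `m`. -/
structure GA (k : Type) [Field k] (A : Type) [Ring A] [Algebra k A] (s m : ℕ) extends Gr k A where
  neg : ∀ i, i < 0 → pr i = 0
  top : ∀ i, (s : ℤ) < i → pr i = 0
  gap : ∀ i, 0 < i → i < (m : ℤ) → pr i = 0
  one : pr 0 1 = 1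
  zero : ∀ a, ∃ c : k, pr 0 a = algebraMap k A c
  mul : ∀ i j a b, pr (i + j) (pr i a * b) = pr i a * pr j b

variable {k : Type} [Field k] {A : Type} [Ring A] [Algebra k A] {s m : ℕ}

/-- A graded module living in degrees at least `0`. -/
structure GM (gA : GA k A s m) (M : Type) [AddCommGroup M] [Module A M] [Module k M]
    extends Gr k M where
  neg : ∀ i, i < 0 → pr i = 0
  smul : ∀ i j a (x : M), pr (i + j) (gA.pr i a • x) = gA.pr i a • pr j x

/-- Hilbert series -/
noncomputable def hs {M : Type} [AddCommGroup M] [Module k M] (g : Gr k M) : PowerSeries ℤ :=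
  PowerSeries.mk fun n => (rk (g.pr (n : ℤ)) : ℤ)

/-- Reversed Hilbert series of the algebra -/
noncomputable def hsr (gA : GA k A s m) : PowerSeries ℤ :=
  PowerSeries.mk fun n => (rk (gA.pr ((s : ℤ) - n)) : ℤ)

section total

variable {M : Type} [AddCommGroup M] [Module k M] [FiniteDimensional k M]

/-- Finitely many projections are nonzero; the sum of the projections is the identity. -/
lemma exists_total (g : Gr k M) :
    ∃ S : Finset ℤ, (∀ i, i ∉ S → g.pr i = 0) ∧ ∀ x, ∑ i ∈ S, g.pr i x = x := by
  classical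
  set T : Set ℤ := {i | g.pr i ≠ 0} with hT
  have hx : ∀ i : T, ∃ x : M, g.pr i x = x ∧ x ≠ 0 := by
    intro i
    have hi : g.pr i ≠ 0 := i.2
    obtain ⟨y, hy⟩ := DFunLike.ne_iff.1 hi
    exact ⟨g.pr i y, g.same i y, hy⟩
  choose v hv hv0 using hx
  have hli : LinearIndependent k v := by
    rw [linearIndependent_iff']
    intro s c hc i hi
    have h1 := congrArg (g.pr i) hc
    rw [map_sum, map_zero, Finset.sum_eq_single i] at h1
    · rw [map_smul, hv] at h1
      exact (smul_eq_zero.1 h1).resolve_right (hv0 i)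
    · intro j _ hj
      have hne : (i : ℤ) ≠ j := fun h => hj (Subtype.ext h.symm)
      rw [map_smul, ← hv j, g.diff _ _ _ hne, smul_zero]
    · intro h; exact absurd hi h
  have hfin : T.Finite := by
    haveI : Finite T := hli.finite
    exact Set.toFinite T
  refine ⟨hfin.toFinset, ?_, ?_⟩
  · intro i hi
    by_contra h
    exact hi (hfin.mem_toFinset.2 h)
  · intro x
    rw [← sub_eq_zero]
    apply g.sep
    intro j
    rw [map_sub, map_sum]
    by_cases hj : j ∈ hfin.toFinset
    · rw [Finset.sum_eq_single j]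
      · rw [g.same, sub_self]
      · intro i _ hij
        exact g.diff j i x (Ne.symm hij)
      · intro h; exact absurd hj h
    · have h0 : g.pr j = 0 := by
        by_contra h
        exact hj (hfin.mem_toFinset.2 h)
      simp [h0]

/-- the finite set of degrees -/
noncomputable def supp (g : Gr k M) : Finset ℤ := (exists_total g).choose

lemma supp_out (g : Gr k M) (i : ℤ) (hi : i ∉ supp g) : g.pr i = 0 :=
  (exists_total g).choose_spec.1 i hi

lemma supp_total (g : Gr k M) (x : M) : ∑ i ∈ supp g, g.pr i x = x :=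
  (exists_total g).choose_spec.2 x

/-- Induction principle: a submodule which contains all homogeneous elements is everything. -/
lemma homog_induction (g : Gr k M) {p : M → Prop} (h0 : p 0) (hadd : ∀ x y, p x → p y → p (x + y))
    (hh : ∀ i x, g.pr i x = x → p x) (x : M) : p x := by
  classical
  rw [← supp_total g x]
  have key : ∀ S : Finset ℤ, p (∑ i ∈ S, g.pr i x) := by
    intro S
    induction S using Finset.induction_on with
    | empty => simpa using h0
    | insert a S ha ih =>
      rw [Finset.sum_insert ha]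
      exact hadd _ _ (hh a _ (g.same a x)) ih
  exact key _

/-- Two linear maps which agree on homogeneous elements agree. -/
lemma ext_homog (g : Gr k M) {N : Type} [AddCommGroup N] [Module k N] (f f' : M →ₗ[k] N)
    (h : ∀ i x, g.pr i x = x → f x = f' x) : f = f' := by
  ext x
  refine homog_induction g (p := fun x => f x = f' x) (by simp) ?_ h x
  intro x y hx hy
  rw [map_add, map_add, hx, hy]

end total

section rank

variable {X Y Z : Type} [AddCommGroup X] [Module k X] [FiniteDimensional k X] [AddCommGroup Y]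
  [Module k Y] [FiniteDimensional k Y] [AddCommGroup Z] [Module k Z] [FiniteDimensional k Z]

/-- Ranks of compatible idempotents are additive in short exact sequences. -/
lemma rk_add (f : X →ₗ[k] Y) (h : Y →ₗ[k] Z) (hf : Function.Injective f)
    (hh : Function.Surjective h) (ex : ∀ y, h y = 0 ↔ ∃ x, f x = y)
    (eX : X →ₗ[k] X) (eY : Y →ₗ[k] Y) (eZ : Z →ₗ[k] Z) (iY : ∀ y, eY (eY y) = eY y)
    (cf : ∀ x, f (eX x) = eY (f x)) (ch : ∀ y, h (eY y) = eZ (h y)) :
    rk eY = rk eX + rk eZ := by
  set φ : LinearMap.range eY →ₗ[k] Z := h ∘ₗ (LinearMap.range eY).subtype with hφ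
  have hφa : ∀ y : LinearMap.range eY, φ y = h y := fun y => rfl
  have hfix : ∀ y ∈ LinearMap.range eY, eY y = y := by
    rintro _ ⟨y, rfl⟩; exact iY y
  have h1 : LinearMap.range φ = LinearMap.range eZ := by
    ext z
    constructor
    · rintro ⟨y, rfl⟩
      refine ⟨h y, ?_⟩
      rw [← ch, hfix y y.2, hφa]
    · rintro ⟨z', rfl⟩
      obtain ⟨y, rfl⟩ := hh z'
      exact ⟨⟨eY y, y, rfl⟩, ch y⟩
  let ψ : LinearMap.range eX →ₗ[k] LinearMap.range eY :=
    LinearMap.codRestrict (LinearMap.range eY) (f ∘ₗ (LinearMap.range eX).subtype) (by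
      rintro ⟨_, x, rfl⟩
      exact ⟨f x, (cf x).symm⟩)
  have hψa : ∀ x : LinearMap.range eX, ((ψ x : LinearMap.range eY) : Y) = f x := fun x => rfl
  have hψ : Function.Injective ψ := by
    intro a b hab
    have := congrArg (fun y : LinearMap.range eY => (y : Y)) hab
    simp only [hψa] at this
    exact Subtype.ext (hf this)
  have h2 : LinearMap.range ψ = LinearMap.ker φ := by
    ext y
    rw [LinearMap.mem_ker, hφa]
    constructor
    · rintro ⟨x, rfl⟩
      rw [hψa, ex]
      exact ⟨x, rfl⟩
    · intro hy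
      obtain ⟨x, hx⟩ := (ex _).1 hy
      have hxx : eX x = x := by
        apply hf
        rw [cf, hx, hfix y y.2]
      refine ⟨⟨x, x, hxx⟩, ?_⟩
      apply Subtype.ext
      rw [hψa]
      exact hx
  have h3 := LinearMap.finrank_range_add_finrank_ker φ
  rw [h1, ← h2, LinearMap.finrank_range_of_inj hψ] at h3
  unfold rk
  omega

/-- Rank of a product of linear maps. -/
lemma rk_pi {ι : Type} [Fintype ι] (e : ι → X →ₗ[k] X) (E : (ι → X) →ₗ[k] (ι → X))
    (hE : ∀ x i, E x i = e i (x i)) : rk E = ∑ i, rk (e i) := by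
  let Φ : (∀ i, LinearMap.range (e i)) →ₗ[k] (ι → X) :=
    LinearMap.pi fun i => (LinearMap.range (e i)).subtype ∘ₗ LinearMap.proj i
  have hΦa : ∀ x i, Φ x i = (x i : X) := fun x i => rfl
  have hΦ : Function.Injective Φ := by
    intro a b hab
    funext i
    apply Subtype.ext
    have := congrFun hab i
    rwa [hΦa, hΦa] at this
  have h1 : LinearMap.range Φ = LinearMap.range E := by
    ext y
    constructor
    · rintro ⟨x, rfl⟩
      have : ∀ i, ∃ z, e i z = x i := fun i => (x i).2
      choose z hz using this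
      refine ⟨z, ?_⟩
      funext i
      rw [hE, hz, hΦa]
    · rintro ⟨x, rfl⟩
      refine ⟨fun i => ⟨e i (x i), x i, rfl⟩, ?_⟩
      funext i
      rw [hΦa, hE]
  unfold rk
  rw [← h1, LinearMap.finrank_range_of_inj hΦ, Module.finrank_pi_fintype]

/-- Rank is invariant under linear equivalences. -/
lemma rk_equiv (φ : X ≃ₗ[k] Y) (eX : X →ₗ[k] X) (eY : Y →ₗ[k] Y)
    (h : ∀ x, φ (eX x) = eY (φ x)) : rk eX = rk eY := by
  have h1 : LinearMap.range eY = (LinearMap.range eX).map (φ : X →ₗ[k] Y) := by
    ext y
    constructor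
    · rintro ⟨y', rfl⟩
      refine ⟨eX (φ.symm y'), ⟨_, rfl⟩, ?_⟩
      change φ (eX (φ.symm y')) = _
      rw [h, LinearEquiv.apply_symm_apply]
    · rintro ⟨_, ⟨x, rfl⟩, rfl⟩
      exact ⟨φ x, (h x).symm⟩
  unfold rk
  rw [h1]
  exact (LinearEquiv.finrank_map_eq φ (LinearMap.range eX)).symm

end rank

end Pool.Agent.TGr
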