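import Pool.Agent.Lib_TGr.Free

set_option autoImplicit false

/-! Homogeneous bases and graded free covers. -/

namespace Pool.Agent.TGr

variable {k : Type} [Field k] {A : Type} [Ring A] [Algebra k A] [FiniteDimensional k A] {s m : ℕ}
  {gA : GA k A s m}

section cover

variable {M : Type} [AddCommGroup M] [Module A M] [Module k M] [IsScalarTower k A M]
  [FiniteDimensional k M]

/-- A homogeneous basis: `M` is equivalent to the product of the ranges of the projections
(`supp`), take `Pi.basis` of bases of the ranges. -/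
lemma exists_homog_basis (g : GM gA M) :
    ∃ (n : ℕ) (d : Fin n → ℕ) (b : Module.Basis (Fin n) k M), ∀ i, g.pr (d i) (b i) = b i := by
  classical
  let S : supp g.toGr → Submodule k M := fun i => LinearMap.range (g.pr i)
  have hS : DirectSum.IsInternal S := by
    rw [DirectSum.isInternal_submodule_iff_iSupIndep_and_iSup_eq_top]
    refine ⟨?_, ?_⟩
    · intro i
      rw [Submodule.disjoint_def]
      intro x hx hx'
      have h1 : (⨆ j, ⨆ (_ : j ≠ i), S j) ≤ LinearMap.ker (g.pr i) := by
        refine iSup_le fun j => iSup_le fun hj => ?_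
        rintro _ ⟨y, rfl⟩
        exact g.diff _ _ _ fun h => hj (Subtype.ext h.symm)
      have h2 : g.pr i x = 0 := h1 hx'
      obtain ⟨y, rfl⟩ := hx
      rwa [g.same] at h2
    · rw [eq_top_iff]
      intro x _
      rw [← supp_total g.toGr x]
      refine Submodule.sum_mem _ fun i hi => ?_
      exact Submodule.mem_iSup_of_mem (⟨i, hi⟩ : supp g.toGr) ⟨x, rfl⟩
  let v : ∀ i, Module.Basis (Fin (Module.finrank k (S i))) k (S i) := fun i => Module.finBasis k (S i)
  let B := hS.collectedBasis v
  have hB : ∀ a, g.pr (a.1 : ℤ) (B a) = B a := by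
    intro a
    have h := hS.collectedBasis_mem v a
    obtain ⟨y, hy⟩ := h
    change g.pr (a.1 : ℤ) y = B a at hy
    rw [← hy, g.same]
  have hpos : ∀ a : (i : supp g.toGr) × Fin (Module.finrank k (S i)), 0 ≤ (a.1 : ℤ) := by
    intro a
    by_contra hc
    have h := hB a
    rw [g.neg _ (not_le.1 hc)] at h
    exact B.ne_zero a h.symm
  let e := Fintype.equivFin ((i : supp g.toGr) × Fin (Module.finrank k (S i)))
  refine ⟨_, fun i => ((e.symm i).1 : ℤ).toNat, B.reindex e, fun i => ?_⟩
  rw [Module.Basis.reindex_apply]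
  rw [Int.toNat_of_nonneg (hpos _)]
  exact hB _

/-- A linear combination of homogeneous elements, in each degree. -/
lemma pr_lincomb (g : GM gA M) {ι : Type} [Fintype ι] (d : ι → ℕ) (x : ι → M)
    (hx : ∀ i, g.pr (d i) (x i) = x i) (j : ℤ) (a : ι → A) :
    g.pr j (∑ i, a i • x i) = ∑ i, (freeGM gA d).pr j a i • x i := by
  rw [map_sum]
  exact Finset.sum_congr rfl fun i _ => pr_smul_homog g j (d i) (a i) (x i) (hx i)

/-- A graded free cover whose kernel lives in the degrees at least `b + m`, when `M` lives in the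
degrees at least `b`. Take a homogeneous basis. If `∑ a i • x i = 0` then for each `j` also
`∑ gA.pr (j - d i) (a i) • x i = 0` (`pr_lincomb`); for `j < b + m` and `x i ≠ 0` one has `d i ≥ b`,
so `j - d i < m` and the coefficient is a scalar of `k` which is nonzero only for `j = d i`
(`GA.gap`, `GA.neg`, `GA.zero`); use the linear independence. -/
lemma exists_cover (g : GM gA M) (b : ℕ) (hb : ∀ j : ℤ, j < b → g.pr j = 0) :
    ∃ (n : ℕ) (d : Fin n → ℕ) (x : Fin n → M), (∀ i, g.pr (d i) (x i) = x i) ∧
      (∀ y : M, ∃ a : Fin n → A, ∑ i, a i • x i = y) ∧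
      (∀ a : Fin n → A, ∑ i, a i • x i = 0 → ∀ j : ℤ, j < b + m →
        (freeGM gA d).pr j a = 0) := by
  obtain ⟨n, d, B, hB⟩ := exists_homog_basis g
  refine ⟨n, d, B, hB, fun y => ?_, fun a ha j hj => ?_⟩
  · refine ⟨fun i => algebraMap k A (B.repr y i), ?_⟩
    simp only [algebraMap_smul]
    exact B.sum_repr y
  · have h1 : ∑ i, gA.pr (j - d i) (a i) • B i = 0 := by
      have h := pr_lincomb g d B hB j a
      rw [ha, map_zero] at h
      exact h.symm
    have hd : ∀ i, (b : ℤ) ≤ d i := by
      intro i
      by_contra hc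
      have h := hB i
      rw [hb _ (not_le.1 hc)] at h
      exact B.ne_zero i h.symm
    have h2 : ∀ i, ∃ c : k, gA.pr (j - d i) (a i) = algebraMap k A c := by
      intro i
      have hdi := hd i
      rcases lt_trichotomy (j - d i) 0 with h | h | h
      · refine ⟨0, ?_⟩
        rw [gA.neg _ h, map_zero]
        rfl
      · rw [h]
        exact gA.zero _
      · refine ⟨0, ?_⟩
        rw [gA.gap _ h (by omega), map_zero]
        rfl
    choose c hc using h2
    have h3 : ∑ i, c i • B i = 0 := by
      rw [← h1]
      refine Finset.sum_congr rfl fun i _ => ?_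
      rw [hc i, algebraMap_smul]
    have h4 := Fintype.linearIndependent_iff.1 B.linearIndependent c h3
    funext i
    rw [freeGM_pr, hc i, h4 i, map_zero]
    rfl

end cover


end Pool.Agent.TGr
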