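import Pool.Agent.Lib_TGr.Hom

set_option autoImplicit false

/-! The dual `D A`, given as in the frozen statement by a module `M` and a bijection `e`. -/

namespace Pool.Agent.TGr

variable {k : Type} [Field k] {A : Type} [Ring A] [Algebra k A] [FiniteDimensional k A] {s m : ℕ}
  {M : Type} [AddCommGroup M] [Module A M] [Module k M] [IsScalarTower k A M]
  (e : M ≃ₗ[k] Module.Dual k A) (he : ∀ (a : A) (m : M) (x : A), e (a • m) x = e m (x * a))

include e in
lemma fin_of_dual : FiniteDimensional k M :=
  LinearEquiv.finiteDimensional e.symm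

/-- The grading of the dual: the functionals on the degree `s - n` have degree `n`. -/
noncomputable def dualGM (gA : GA k A s m) : GM gA M where
  pr n := e.symm.toLinearMap ∘ₗ (gA.pr (s - n)).dualMap ∘ₗ e.toLinearMap
  same i x := by
    apply e.injective
    refine LinearMap.ext fun a => ?_
    simp [gA.same]
  diff i j x hij := by
    apply e.injective
    refine LinearMap.ext fun a => ?_
    simp only [LinearMap.comp_apply, LinearEquiv.coe_coe, LinearEquiv.apply_symm_apply,
      LinearMap.dualMap_apply, map_zero, LinearMap.zero_apply]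
    rw [gA.diff _ _ _ (by omega), map_zero]
  sep x hx := by
    apply e.injective
    refine LinearMap.ext fun a => ?_
    rw [map_zero, LinearMap.zero_apply, ← supp_total gA.toGr a, map_sum]
    refine Finset.sum_eq_zero fun i _ => ?_
    have h := congrArg (fun y => e y a) (hx (s - i))
    simpa using h
  neg i hi := by
    refine LinearMap.ext fun x => ?_
    apply e.injective
    refine LinearMap.ext fun a => ?_
    simp only [LinearMap.comp_apply, LinearEquiv.coe_coe, LinearEquiv.apply_symm_apply,
      LinearMap.dualMap_apply, map_zero, LinearMap.zero_apply]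
    rw [gA.top _ (by omega), LinearMap.zero_apply, map_zero]
  smul i j a x := by
    apply e.injective
    refine LinearMap.ext fun b => ?_
    simp only [LinearMap.comp_apply, LinearEquiv.coe_coe, LinearEquiv.apply_symm_apply,
      LinearMap.dualMap_apply, he]
    rw [mul_homog (gA := gA) (s - j) i b (gA.pr i a) (gA.same i a)]
    congr 3
    ring_nf

lemma dualGM_pr (gA : GA k A s m) (n : ℤ) (x : M) (a : A) :
    e ((dualGM e he gA).pr n x) a = e x (gA.pr (s - n) a) := by
  change e (e.symm _) a = _
  rw [LinearEquiv.apply_symm_apply]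
  rfl

/-- The dual has no degrees above `s`. -/
lemma dualGM_top (gA : GA k A s m) (j : ℤ) (hj : (s : ℤ) < j) : (dualGM e he gA).pr j = 0 := by
  refine LinearMap.ext fun x => ?_
  apply e.injective
  refine LinearMap.ext fun a => ?_
  rw [dualGM_pr, gA.neg _ (by omega)]
  simp

/-- The Hilbert series of the dual is the reversed Hilbert series
(`LinearMap.finrank_range_dualMap_eq_finrank_range`). -/
lemma hs_dual (gA : GA k A s m) : hs (dualGM e he gA).toGr = hsr gA := by
  haveI := fin_of_dual e
  refine PowerSeries.ext fun n => ?_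
  rw [hs, hsr, PowerSeries.coeff_mk, PowerSeries.coeff_mk]
  congr 1
  rw [rk_equiv e ((dualGM e he gA).pr n) ((gA.pr (s - n)).dualMap) (fun x => ?_), rk, rk,
    LinearMap.finrank_range_dualMap_eq_finrank_range]
  refine LinearMap.ext fun a => ?_
  rw [dualGM_pr]
  rfl

include he in
/-- The dual is injective. Baer: for a left ideal `I` and `g : I → M` extend the functional
`x ↦ e (g x) 1` to a functional `F` on `A` and take `a ↦ a • e.symm F`;
`e (g a) x = e (x • g a) 1 = e (g (x * a)) 1 = F (x * a)` for `a ∈ I`. -/
lemma dual_injective : Module.Injective A M := by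
  refine Module.Baer.injective fun I g => ?_
  let φ : (I.restrictScalars k : Submodule k A) →ₗ[k] k :=
    { toFun := fun x => e (g ⟨x.1, x.2⟩) 1
      map_add' := fun x y => by
        have h : g ⟨(x + y).1, (x + y).2⟩ = g ⟨x.1, x.2⟩ + g ⟨y.1, y.2⟩ := by
          rw [← map_add]
          rfl
        rw [h, map_add, LinearMap.add_apply]
      map_smul' := fun c x => by
        have h : g ⟨(c • x).1, (c • x).2⟩ = c • g ⟨x.1, x.2⟩ := by
          rw [← algebraMap_smul A c (g ⟨x.1, x.2⟩), ← map_smul]
          congr 1
          refine Subtype.ext ?_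
          change c • x.1 = algebraMap k A c • x.1
          rw [algebraMap_smul]
        rw [h, map_smul, LinearMap.smul_apply, RingHom.id_apply] }
  obtain ⟨F, hF⟩ := φ.exists_extend
  refine ⟨LinearMap.toSpanSingleton A M (e.symm F), fun a ha => ?_⟩
  apply e.injective
  refine LinearMap.ext fun x => ?_
  rw [LinearMap.toSpanSingleton_apply, he, LinearEquiv.apply_symm_apply]
  have h1 : F (x * a) = φ ⟨x * a, I.mul_mem_left x ha⟩ := by
    rw [← hF]
    rfl
  have h2 : φ ⟨x * a, I.mul_mem_left x ha⟩ = e (g ⟨x * a, I.mul_mem_left x ha⟩) 1 := rfl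
  have h3 : g ⟨x * a, I.mul_mem_left x ha⟩ = x • g ⟨a, ha⟩ := by
    rw [← map_smul]
    rfl
  rw [h1, h2, h3, he, one_mul]

include he in
/-- If one element generates `M`, the algebra is self-injective (compare dimensions). -/
lemma inj_of_generator (t : M) (ht : ∀ y : M, ∃ a : A, a • t = y) : Module.Injective A A := by
  haveI := fin_of_dual e
  have hfin : Module.finrank k A = Module.finrank k M := by
    rw [e.finrank_eq, Subspace.dual_finrank_eq]
  let f : A →ₗ[A] M := LinearMap.toSpanSingleton A M t
  have hs : Function.Surjective f := fun y => by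
    obtain ⟨a, ha⟩ := ht y
    exact ⟨a, by rw [LinearMap.toSpanSingleton_apply, ha]⟩
  have hi : Function.Injective f :=
    (LinearMap.injective_iff_surjective_of_finrank_eq_finrank
      (f := f.restrictScalars k) hfin).2 hs
  have hM := dual_injective e he
  exact Module.Baer.injective (Module.Baer.of_equiv (LinearEquiv.ofBijective f ⟨hi, hs⟩).symm
    (Module.Baer.of_injective hM))

include he in
/-- Double annihilator: `A • t` is determined by its annihilator
(`Subspace.dualCoannihilator_dualAnnihilator_eq` or a dimension count). -/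
lemma mem_of_ann (t y : M) (h : ∀ x : A, (∀ a, e t (x * a) = 0) → e y x = 0) :
    ∃ a : A, a • t = y := by
  let f : A →ₗ[k] Module.Dual k A :=
    e.toLinearMap ∘ₗ (LinearMap.toSpanSingleton A M t).restrictScalars k
  have hf : ∀ a x, f a x = e t (x * a) := fun a x => he a t x
  have h1 : e y ∈ (LinearMap.range f).dualCoannihilator.dualAnnihilator := by
    rw [Submodule.mem_dualAnnihilator]
    intro x hx
    rw [Submodule.mem_dualCoannihilator] at hx
    refine h x fun a => ?_
    rw [← hf]
    exact hx _ ⟨a, rfl⟩
  rw [Subspace.dualCoannihilator_dualAnnihilator_eq] at h1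
  obtain ⟨a, ha⟩ := h1
  exact ⟨a, e.injective ha⟩

include he in
/-- The submodule generated by a nonzero element contains the augmentation. For `y ≠ 0` let `i` be
the largest degree such that `e y` is nonzero on the degree `i`, and `a` homogeneous of degree `i`
with `e y a = 1`; then `a • y` is the augmentation `x ↦ (coefficient of gA.pr 0 x)`. -/
lemma exists_socle (gA : GA k A s m) [Nontrivial A] :
    ∃ z : M, z ≠ 0 ∧ ∀ y : M, y ≠ 0 → ∃ a : A, a • y = z := by
  obtain ⟨φ, hφ⟩ := Module.Projective.exists_dual_eq_one k (one_ne_zero (α := A))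
  have hz : ∀ x, e (e.symm (φ ∘ₗ gA.pr 0)) x = φ (gA.pr 0 x) := fun x => by
    rw [LinearEquiv.apply_symm_apply]
    rfl
  refine ⟨e.symm (φ ∘ₗ gA.pr 0), fun h0 => ?_, fun y hy => ?_⟩
  · have h1 := hz 1
    rw [h0, gA.one, hφ, map_zero, LinearMap.zero_apply] at h1
    exact zero_ne_one h1
  · obtain ⟨i, ⟨a, ha⟩, hi⟩ := Int.exists_greatest_of_bdd
      (P := fun i => ∃ a, e y (gA.pr i a) ≠ 0) ⟨s, fun i ⟨a, ha⟩ => by
        by_contra hlt
        rw [gA.top i (by omega), LinearMap.zero_apply, map_zero] at ha
        exact ha rfl⟩ (by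
        by_contra hcon
        push Not at hcon
        apply hy
        apply e.injective
        rw [map_zero]
        refine LinearMap.ext fun a => ?_
        rw [← supp_total gA.toGr a, map_sum]
        exact Finset.sum_eq_zero fun i _ => hcon i a)
    refine ⟨(e y (gA.pr i a))⁻¹ • gA.pr i a, ?_⟩
    apply e.injective
    refine ext_homog gA.toGr _ _ fun j x hx => ?_
    rw [hz, he, mul_smul_comm, map_smul, smul_eq_mul]
    rcases lt_trichotomy j 0 with hj | hj | hj
    · have hx0 : x = 0 := by rw [← hx, gA.neg j hj, LinearMap.zero_apply]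
      rw [hx0]
      simp
    · subst hj
      obtain ⟨c, hc⟩ := gA.zero x
      rw [hx] at hc
      rw [hx, hc, ← Algebra.smul_def, map_smul, Algebra.algebraMap_eq_smul_one, map_smul, hφ,
        smul_eq_mul, smul_eq_mul, mul_one, mul_left_comm, inv_mul_cancel₀ ha, mul_one]
    · have h1 : x * gA.pr i a = gA.pr (j + i) (x * a) := by
        have h2 := gA.mul j i x a
        rw [hx] at h2
        exact h2.symm
      have h3 : e y (gA.pr (j + i) (x * a)) = 0 := by
        by_contra hcon
        have := hi (j + i) ⟨_, hcon⟩
        omega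
      have h4 : gA.pr 0 x = 0 := by
        rw [← hx]
        exact gA.diff 0 j x (by omega)
      rw [h1, h3, h4, map_zero, mul_zero]

end Pool.Agent.TGr
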