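import Pool.Agent.Lib_TGr.Basic

set_option autoImplicit false

/-! Graded free modules, graded covers, kernels. -/

namespace Pool.Agent.TGr

variable {k : Type} [Field k] {A : Type} [Ring A] [Algebra k A] [FiniteDimensional k A] {s m : ℕ}
  {gA : GA k A s m}

section homog

variable {M : Type} [AddCommGroup M] [Module A M] [Module k M] [IsScalarTower k A M]
  [FiniteDimensional k M]

/-- `a * x` for homogeneous `x`. Decompose `a = ∑ pr l a` with `supp_total`. -/
lemma pr_smul_homog (g : GM gA M) (j d : ℤ) (a : A) (x : M) (hx : g.pr d x = x) :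
    g.pr j (a • x) = gA.pr (j - d) a • x := by
  have key : ∀ l, g.pr j (gA.pr l a • x) = if l = j - d then gA.pr (j - d) a • x else 0 := by
    intro l
    have h1 := g.smul l (j - l) a x
    rw [show l + (j - l) = j by ring] at h1
    rw [h1]
    split_ifs with h
    · subst h
      rw [show j - (j - d) = d by ring, hx]
    · rw [← hx, g.diff (j - l) d x (by omega), smul_zero]
  have h2 : g.pr j (a • x) = ∑ l ∈ supp gA.toGr, g.pr j (gA.pr l a • x) := by
    rw [← map_sum, ← Finset.sum_smul, supp_total]
  rw [h2, Finset.sum_congr rfl (fun l _ => key l), Finset.sum_ite_eq']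
  split_ifs with h
  · rfl
  · rw [supp_out gA.toGr _ h, LinearMap.zero_apply, zero_smul]

/-- `a * x` for homogeneous `a`. -/
lemma pr_homog_smul (g : GM gA M) (j i : ℤ) (a : A) (x : M) (ha : gA.pr i a = a) :
    g.pr j (a • x) = a • g.pr (j - i) x := by
  have h1 := g.smul i (j - i) a x
  rwa [show i + (j - i) = j by ring, ha] at h1

/-- Same as the field `mul` with the homogeneous element on the right. -/
lemma mul_homog (j i : ℤ) (a b : A) (hb : gA.pr i b = b) :
    gA.pr j (a * b) = gA.pr (j - i) a * b := by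
  have key : ∀ l, gA.pr j (gA.pr l a * b) = if l = j - i then gA.pr (j - i) a * b else 0 := by
    intro l
    have h1 := gA.mul l (j - l) a b
    rw [show l + (j - l) = j by ring] at h1
    rw [h1]
    split_ifs with h
    · subst h
      rw [show j - (j - i) = i by ring, hb]
    · rw [← hb, gA.diff (j - l) i b (by omega), mul_zero]
  have h2 : gA.pr j (a * b) = ∑ l ∈ supp gA.toGr, gA.pr j (gA.pr l a * b) := by
    rw [← map_sum, ← Finset.sum_mul, supp_total]
  rw [h2, Finset.sum_congr rfl (fun l _ => key l), Finset.sum_ite_eq']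
  split_ifs with h
  · rfl
  · rw [supp_out gA.toGr _ h, LinearMap.zero_apply, zero_mul]

end homog

/-- The grading of `A ^ ι` with the generators in the degrees `d`. -/
noncomputable def freeGM (gA : GA k A s m) {ι : Type} (d : ι → ℕ) : GM gA (ι → A) where
  pr n := LinearMap.pi fun i => gA.pr (n - d i) ∘ₗ LinearMap.proj i
  same i x := by
    funext j
    exact gA.same _ _
  diff i j x hij := by
    funext l
    exact gA.diff _ _ _ (by omega)
  sep x hx := by
    funext l
    refine gA.sep _ fun i => ?_
    have h := congrFun (hx (i + d l)) l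
    simpa using h
  neg i hi := by
    refine LinearMap.ext fun x => ?_
    funext l
    change gA.pr (i - d l) (x l) = 0
    rw [gA.neg _ (by omega)]
    rfl
  smul i j a x := by
    funext l
    change gA.pr (i + j - d l) (gA.pr i a * x l) = gA.pr i a * gA.pr (j - d l) (x l)
    rw [← gA.mul i (j - d l) a (x l)]
    congr 2
    ring

lemma freeGM_pr (gA : GA k A s m) {ι : Type} (d : ι → ℕ) (n : ℤ) (x : ι → A) (i : ι) :
    (freeGM gA d).pr n x i = gA.pr (n - d i) (x i) := rfl

/-- Hilbert series of a graded free module. Use `rk_pi` in each degree `n`; for `n < d i` the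
projection `gA.pr (n - d i)` is zero (`GA.neg`); `PowerSeries.coeff_X_pow_mul'`. -/
lemma hs_free {ι : Type} [Fintype ι] (d : ι → ℕ) :
    hs (freeGM gA d).toGr = ∑ i, (PowerSeries.X : PowerSeries ℤ) ^ d i * hs gA.toGr := by
  ext n
  rw [map_sum]
  have h1 : rk ((freeGM gA d).pr (n : ℤ)) = ∑ i, rk (gA.pr ((n : ℤ) - d i)) :=
    rk_pi (fun i => gA.pr ((n : ℤ) - d i)) _ fun _ _ => rfl
  have h2 : PowerSeries.coeff n (hs (freeGM gA d).toGr) = (rk ((freeGM gA d).pr (n : ℤ)) : ℤ) := by
    rw [hs, PowerSeries.coeff_mk]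
  rw [h2, h1, Nat.cast_sum]
  refine Finset.sum_congr rfl fun i _ => ?_
  rw [PowerSeries.coeff_X_pow_mul']
  split_ifs with h
  · rw [hs, PowerSeries.coeff_mk, Nat.cast_sub h]
  · rw [gA.neg _ (by omega)]
    simp [rk]

section kernel

variable {M M' : Type} [AddCommGroup M] [Module A M] [Module k M] [IsScalarTower k A M]
  [FiniteDimensional k M] [AddCommGroup M'] [Module A M'] [Module k M'] [IsScalarTower k A M']
  [FiniteDimensional k M']

instance finKer (f : M →ₗ[A] M') : FiniteDimensional k (LinearMap.ker f) :=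
  FiniteDimensional.of_injective ((LinearMap.ker f).subtype.restrictScalars k)
    Subtype.val_injective

/-- The grading of the kernel of a graded linear map. -/
noncomputable def kerGM (g : GM gA M) (g' : GM gA M') (f : M →ₗ[A] M')
    (hf : ∀ i x, f (g.pr i x) = g'.pr i (f x)) : GM gA (LinearMap.ker f) where
  pr i :=
    { toFun := fun x => ⟨g.pr i x, by
        rw [LinearMap.mem_ker, hf, LinearMap.mem_ker.1 x.2, map_zero]⟩
      map_add' := fun x y => Subtype.ext (map_add (g.pr i) _ _)
      map_smul' := fun c x => Subtype.ext (map_smul (g.pr i) c _) }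
  same i x := Subtype.ext (g.same i _)
  diff i j x hij := Subtype.ext (g.diff i j _ hij)
  sep x hx := Subtype.ext (g.sep _ fun i => congrArg Subtype.val (hx i))
  neg i hi := by
    refine LinearMap.ext fun x => Subtype.ext ?_
    change g.pr i x = 0
    rw [g.neg i hi]
    rfl
  smul i j a x := Subtype.ext (g.smul i j a _)

lemma kerGM_pr (g : GM gA M) (g' : GM gA M') (f : M →ₗ[A] M')
    (hf : ∀ i x, f (g.pr i x) = g'.pr i (f x)) (i : ℤ) (x : LinearMap.ker f) :
    ((kerGM g g' f hf).pr i x : M) = g.pr i x := rfl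

/-- Hilbert series are additive (`rk_add`). -/
lemma hs_add (g : GM gA M) (g' : GM gA M') (f : M →ₗ[A] M')
    (hf : ∀ i x, f (g.pr i x) = g'.pr i (f x)) (hs' : Function.Surjective f) :
    hs g.toGr = hs (kerGM g g' f hf).toGr + hs g'.toGr := by
  ext n
  rw [map_add, hs, hs, hs, PowerSeries.coeff_mk, PowerSeries.coeff_mk, PowerSeries.coeff_mk,
    ← Nat.cast_add]
  congr 1
  refine rk_add ((LinearMap.ker f).subtype.restrictScalars k) (f.restrictScalars k)
    Subtype.val_injective hs' (fun y => ?_) _ _ _ (fun y => g.same _ y) (fun x => rfl)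
    (fun y => hf _ y)
  constructor
  · intro hy
    exact ⟨⟨y, hy⟩, rfl⟩
  · rintro ⟨x, rfl⟩
    exact x.2

end kernel

end Pool.Agent.TGr
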