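import Pool.Agent.Lib_TGr.Free

set_option autoImplicit false

/-! The grading of `Hom (M, A)` and its Hilbert series. -/

namespace Pool.Agent.TGr

variable {k : Type} [Field k] {A : Type} [Ring A] [Algebra k A] [FiniteDimensional k A] {s m : ℕ}
  {gA : GA k A s m} {M : Type} [AddCommGroup M] [Module A M] [Module k M] [IsScalarTower k A M]
  [FiniteDimensional k M]

instance finHom : FiniteDimensional k (M →ₗ[A] A) :=
  FiniteDimensional.of_injective (LinearMap.restrictScalarsₗ k A M A k)
    (LinearMap.restrictScalars_injective k)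

lemma Hom_sum_homog (g : GM gA M) (r : ℤ) (f : M →ₗ[A] A) (i : ℤ) (x : M) (hx : g.pr i x = x) :
    ∑ j ∈ supp g.toGr, gA.pr (s + j - r) (f (g.pr j x)) = gA.pr (s + i - r) (f x) := by
  by_cases hi : i ∈ supp g.toGr
  · rw [Finset.sum_eq_single_of_mem i hi, hx]
    intro j _ hj
    have h : g.pr j x = 0 := by
      rw [← hx]
      exact g.diff j i x hj
    rw [h, map_zero, map_zero]
  · have h0 : g.pr i = 0 := supp_out g.toGr i hi
    have h : x = 0 := by
      rw [← hx, h0]
      rfl
    subst h
    simp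

lemma Hom_ext_homog (g : GM gA M) (f f' : M →ₗ[A] A)
    (h : ∀ i x, g.pr i x = x → f x = f' x) : f = f' := by
  refine LinearMap.ext fun x => ?_
  refine homog_induction g.toGr (p := fun x => f x = f' x) ?_ ?_ h x
  · simp
  · intro x y hx hy
    rw [map_add, map_add, hx, hy]

lemma Hom_smul_homog (g : GM gA M) (r : ℤ) (f : M →ₗ[A] A) (l i : ℤ) (a : A) (x : M)
    (ha : gA.pr l a = a) (hx : g.pr i x = x) :
    ∑ j ∈ supp g.toGr, gA.pr (s + j - r) (f (g.pr j (a • x))) =
      a * ∑ j ∈ supp g.toGr, gA.pr (s + j - r) (f (g.pr j x)) := by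
  have h1 : g.pr (l + i) (a • x) = a • x := by
    have h := g.smul l i a x
    rw [ha, hx] at h
    exact h
  rw [Hom_sum_homog g r f (l + i) (a • x) h1, Hom_sum_homog g r f i x hx, map_smul, smul_eq_mul]
  have h := gA.mul l (s + i - r) a (f x)
  rw [ha] at h
  rw [← h]
  congr 2
  ring

lemma Hom_smul (g : GM gA M) (r : ℤ) (f : M →ₗ[A] A) (a : A) (x : M) :
    ∑ j ∈ supp g.toGr, gA.pr (s + j - r) (f (g.pr j (a • x))) =
      a * ∑ j ∈ supp g.toGr, gA.pr (s + j - r) (f (g.pr j x)) := by
  refine homog_induction gA.toGr (p := fun a => ∀ x : M,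
    ∑ j ∈ supp g.toGr, gA.pr (s + j - r) (f (g.pr j (a • x))) =
      a * ∑ j ∈ supp g.toGr, gA.pr (s + j - r) (f (g.pr j x))) ?_ ?_ ?_ a x
  · intro x
    simp
  · intro a b ha hb x
    simp only [add_smul, map_add, Finset.sum_add_distrib, add_mul]
    rw [ha, hb]
  · intro l a ha x
    refine homog_induction g.toGr (p := fun x : M =>
      ∑ j ∈ supp g.toGr, gA.pr (s + j - r) (f (g.pr j (a • x))) =
        a * ∑ j ∈ supp g.toGr, gA.pr (s + j - r) (f (g.pr j x))) ?_ ?_ ?_ x
    · simp
    · intro x y hx hy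
      simp only [smul_add, map_add, Finset.sum_add_distrib, mul_add]
      rw [hx, hy]
    · intro i x hx
      exact Hom_smul_homog g r f l i a x ha hx

/-- The component of a homomorphism `f : M → A` which maps the degree `i` to the degree
`s + i - r`. -/
noncomputable def comp (g : GM gA M) (r : ℤ) : (M →ₗ[A] A) →ₗ[k] (M →ₗ[A] A) where
  toFun f :=
    { toFun := fun x => ∑ i ∈ supp g.toGr, gA.pr (s + i - r) (f (g.pr i x))
      map_add' := fun x y => by simp [Finset.sum_add_distrib]
      map_smul' := fun a x => by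
        exact Hom_smul g r f a x }
  map_add' f f' := by
    refine LinearMap.ext fun x => ?_
    simp [Finset.sum_add_distrib]
  map_smul' c f := by
    refine LinearMap.ext fun x => ?_
    simp [Finset.smul_sum]

/-- The component on homogeneous elements. -/
lemma comp_homog (g : GM gA M) (r : ℤ) (f : M →ₗ[A] A) (i : ℤ) (x : M) (hx : g.pr i x = x) :
    comp g r f x = gA.pr (s + i - r) (f x) :=
  Hom_sum_homog g r f i x hx

lemma comp_idem (g : GM gA M) (r : ℤ) (f : M →ₗ[A] A) :
    comp g r (comp g r f) = comp g r f := by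
  refine Hom_ext_homog g _ _ fun i x hx => ?_
  rw [comp_homog g r _ i x hx, comp_homog g r _ i x hx, gA.same]

/-- Hilbert series of the dual. -/
noncomputable def hsd (g : GM gA M) : PowerSeries ℤ :=
  PowerSeries.mk fun r => (rk (comp g (r : ℤ)) : ℤ)

/-- If `M` lives in the degrees at least `b`, the components `r < b` vanish:
`s + i - r > s` for `i ≥ b`. -/
lemma comp_low (g : GM gA M) (b : ℕ) (hb : ∀ j : ℤ, j < b → g.pr j = 0) (r : ℤ) (hr : r < b) :
    comp g r = 0 := by
  refine LinearMap.ext fun f => Hom_ext_homog g _ _ fun i x hx => ?_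
  rw [comp_homog g r _ i x hx]
  rcases lt_or_ge i (b : ℤ) with hi | hi
  · have h : x = 0 := by
      rw [← hx, hb i hi]
      rfl
    subst h
    simp
  · rw [gA.top _ (by omega)]
    rfl

/-- If `M` lives in the degrees at most `t`, the components `r > s + t` vanish. -/
lemma comp_high (g : GM gA M) (t : ℕ) (ht : ∀ j : ℤ, t < j → g.pr j = 0) (r : ℤ)
    (hr : s + t < r) : comp g r = 0 := by
  refine LinearMap.ext fun f => Hom_ext_homog g _ _ fun i x hx => ?_
  rw [comp_homog g r _ i x hx]
  rcases lt_or_ge (t : ℤ) i with hi | hi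
  · have h : x = 0 := by
      rw [← hx, ht i hi]
      rfl
    subst h
    simp
  · rw [gA.neg _ (by omega)]
    rfl

end Pool.Agent.TGr
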