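import Pool.Agent.Lib_TGr.Hom

set_option autoImplicit false

/-! The Hilbert series of duals: free modules and additivity. -/

namespace Pool.Agent.TGr

variable {k : Type} [Field k] {A : Type} [Ring A] [Algebra k A] [FiniteDimensional k A] {s m : ℕ}
  {gA : GA k A s m} {M : Type} [AddCommGroup M] [Module A M] [Module k M] [IsScalarTower k A M]
  [FiniteDimensional k M]

/-- `(ι → A) →ₗ[A] A` is `ι → A` by evaluation at the unit vectors -/
private noncomputable def homAdd_ev (k : Type) [Field k] (A : Type) [Ring A] [Algebra k A]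
    (ι : Type) [Fintype ι] [DecidableEq ι] : ((ι → A) →ₗ[A] A) ≃ₗ[k] (ι → A) where
  toFun f := fun i => f (Pi.single i 1)
  map_add' f f' := rfl
  map_smul' c f := rfl
  invFun v := Fintype.linearCombination A v
  left_inv f := by
    refine LinearMap.ext fun x => ?_
    rw [Fintype.linearCombination_apply]
    conv_rhs => rw [pi_eq_sum_univ' x, map_sum]
    refine Finset.sum_congr rfl fun i _ => ?_
    rw [← f.map_smul]
  right_inv v := by
    funext i
    change Fintype.linearCombination A v (Pi.single i 1) = v i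
    rw [Fintype.linearCombination_apply_single]
    simp

private lemma homAdd_rk_zero {X Y : Type} [AddCommGroup X] [Module k X] [AddCommGroup Y]
    [Module k Y] : rk (0 : X →ₗ[k] Y) = 0 := by
  unfold rk
  rw [LinearMap.range_zero, finrank_bot]

private lemma homAdd_single {ι : Type} [DecidableEq ι] (d : ι → ℕ) (i : ι) :
    (freeGM gA d).pr (d i) (Pi.single i 1) = Pi.single i 1 := by
  funext l
  rw [freeGM_pr]
  by_cases h : l = i
  · subst h
    rw [Pi.single_eq_same, sub_self, gA.one]
  · rw [Pi.single_eq_of_ne h, map_zero]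

/-- The dual of a graded free module. `(ι → A) →ₗ[A] A` is `ι → A` by evaluation at the unit
vectors, which are homogeneous of degree `d i`; then `comp r` becomes the product of
`gA.pr (s + d i - r)`, use `rk_equiv` and `rk_pi`; for `r < d i` this projection is zero
(`GA.top`). -/
lemma hsd_free {ι : Type} [Fintype ι] (d : ι → ℕ) :
    hsd (freeGM gA d) = ∑ i, (PowerSeries.X : PowerSeries ℤ) ^ d i * hsr gA := by
  classical
  refine PowerSeries.ext fun r => ?_
  rw [hsd, PowerSeries.coeff_mk, map_sum]
  have h1 : rk (comp (freeGM gA d) (r : ℤ)) =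
      rk (LinearMap.pi fun i => gA.pr (s + d i - r) ∘ₗ LinearMap.proj i :
        (ι → A) →ₗ[k] (ι → A)) := by
    refine rk_equiv (homAdd_ev k A ι) _ _ fun f => ?_
    funext i
    change comp (freeGM gA d) (r : ℤ) f (Pi.single i 1) = gA.pr (s + d i - r) (f (Pi.single i 1))
    exact comp_homog (freeGM gA d) r f (d i) _ (homAdd_single d i)
  have h2 : rk (LinearMap.pi fun i => gA.pr (s + d i - r) ∘ₗ LinearMap.proj i :
        (ι → A) →ₗ[k] (ι → A)) = ∑ i, rk (gA.pr (s + d i - r)) :=
    rk_pi (fun i => gA.pr (s + d i - r)) _ fun x i => rfl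
  rw [h1, h2, Nat.cast_sum]
  refine Finset.sum_congr rfl fun i _ => ?_
  rw [PowerSeries.coeff_X_pow_mul']
  split_ifs with h
  · rw [hsr, PowerSeries.coeff_mk]
    congr 3
    push_cast [h]
    ring
  · rw [gA.top _ (by omega), homAdd_rk_zero]
    rfl

variable {M' : Type} [AddCommGroup M'] [Module A M'] [Module k M'] [IsScalarTower k A M']
  [FiniteDimensional k M']

/-- Additivity for the duals, if all homomorphisms of the kernel extend. Apply `rk_add` to
`Hom (M', A) → Hom (M, A) → Hom (K, A)`. -/
lemma hsd_add (g : GM gA M) (g' : GM gA M') (f : M →ₗ[A] M')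
    (hf : ∀ i x, f (g.pr i x) = g'.pr i (f x)) (hs' : Function.Surjective f)
    (hext : ∀ φ : LinearMap.ker f →ₗ[A] A, ∃ ψ : M →ₗ[A] A, ∀ x, ψ x.1 = φ x) :
    hsd g = hsd (kerGM g g' f hf) + hsd g' := by
  let F : (M' →ₗ[A] A) →ₗ[k] (M →ₗ[A] A) :=
    { toFun := fun φ => φ ∘ₗ f
      map_add' := fun φ φ' => rfl
      map_smul' := fun c φ => rfl }
  let G : (M →ₗ[A] A) →ₗ[k] (LinearMap.ker f →ₗ[A] A) :=
    { toFun := fun ψ => ψ ∘ₗ (LinearMap.ker f).subtype
      map_add' := fun φ φ' => rfl
      map_smul' := fun c φ => rfl }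
  have hF : ∀ φ x, F φ x = φ (f x) := fun φ x => rfl
  have hG : ∀ ψ x, G ψ x = ψ x.1 := fun ψ x => rfl
  refine PowerSeries.ext fun r => ?_
  rw [map_add, hsd, hsd, hsd, PowerSeries.coeff_mk, PowerSeries.coeff_mk, PowerSeries.coeff_mk]
  have key : rk (comp g (r : ℤ)) = rk (comp g' (r : ℤ)) + rk (comp (kerGM g g' f hf) (r : ℤ)) := by
    refine rk_add F G ?_ ?_ ?_ _ _ _ (comp_idem g r) ?_ ?_
    · intro φ φ' h
      refine LinearMap.ext fun y => ?_
      obtain ⟨x, rfl⟩ := hs' y
      exact LinearMap.congr_fun h x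
    · intro φ
      obtain ⟨ψ, hψ⟩ := hext φ
      exact ⟨ψ, LinearMap.ext fun x => hψ x⟩
    · intro ψ
      constructor
      · intro h
        have hk : LinearMap.ker f ≤ LinearMap.ker ψ := by
          intro x hx
          exact LinearMap.congr_fun h ⟨x, hx⟩
        refine ⟨(Submodule.liftQ (LinearMap.ker f) ψ hk) ∘ₗ
          (f.quotKerEquivOfSurjective hs').symm.toLinearMap, LinearMap.ext fun x => ?_⟩
        rw [hF]
        have h3 : (f.quotKerEquivOfSurjective hs').symm (f x) =
            Submodule.Quotient.mk x := by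
          rw [LinearEquiv.symm_apply_eq]
          rfl
        change (Submodule.liftQ (LinearMap.ker f) ψ hk)
          ((f.quotKerEquivOfSurjective hs').symm (f x)) = ψ x
        rw [h3]
        rfl
      · rintro ⟨φ, rfl⟩
        refine LinearMap.ext fun x => ?_
        rw [hG, hF, LinearMap.mem_ker.1 x.2, map_zero]
        rfl
    · intro φ
      refine LinearMap.ext fun x => ?_
      refine homog_induction g.toGr (p := fun x => F (comp g' r φ) x = comp g r (F φ) x) ?_ ?_ ?_ x
      · rw [map_zero, map_zero]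
      · intro x y hx hy
        rw [map_add, map_add, hx, hy]
      · intro i x hx
        rw [hF, comp_homog g' r φ i (f x) (by rw [← hf, hx]), comp_homog g r (F φ) i x hx, hF]
    · intro ψ
      refine LinearMap.ext fun x => ?_
      refine homog_induction (kerGM g g' f hf).toGr
        (p := fun x => G (comp g r ψ) x = comp (kerGM g g' f hf) r (G ψ) x) ?_ ?_ ?_ x
      · rw [map_zero, map_zero]
      · intro x y hx hy
        rw [map_add, map_add, hx, hy]
      · intro i x hx
        rw [hG, comp_homog g r ψ i x.1 (by rw [← kerGM_pr g g' f hf, hx]),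
          comp_homog (kerGM g g' f hf) r (G ψ) i x hx, hG]
  rw [key]
  push_cast
  ring

end Pool.Agent.TGr
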