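import Pool.Agent.Lib_TGr.Free

set_option autoImplicit false

/-! Graded generalized inverse of `a ↦ a • t`; linearity for degree reasons; units. -/

namespace Pool.Agent.TGr

variable {k : Type} [Field k] {A : Type} [Ring A] [Algebra k A] [FiniteDimensional k A] {s m : ℕ}
  {gA : GA k A s m} {M : Type} [AddCommGroup M] [Module A M] [Module k M] [IsScalarTower k A M]
  [FiniteDimensional k M]

/-- A component of a product. -/
lemma Inv_pr_mul (gA : GA k A s m) (j : ℤ) (a b : A) :
    gA.pr j (a * b) = ∑ l ∈ supp gA.toGr, gA.pr l a * gA.pr (j - l) b := by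
  have h2 : gA.pr j (a * b) = ∑ l ∈ supp gA.toGr, gA.pr j (gA.pr l a * b) := by
    rw [← map_sum, ← Finset.sum_mul, supp_total]
  rw [h2]
  refine Finset.sum_congr rfl fun l _ => ?_
  have h1 := gA.mul l (j - l) a b
  rwa [show l + (j - l) = j by ring] at h1

/-- A reflexive generalized inverse of the map `a ↦ a • t` which respects the gradings. First a
linear right inverse on the range of the map, extended to `M` (`LinearMap.exists_extend`); then
take the sum of the components of degree `0`, `y ↦ ∑ i ∈ supp, gA.pr i (w₀ (g.pr i y))`; finally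
replace `w` by `y ↦ w (w y • t)`. -/
lemma exists_w (g : GM gA M) (t : M) (ht : g.pr 0 t = t) :
    ∃ w : M →ₗ[k] A, (∀ n y, gA.pr n (w y) = w (g.pr n y)) ∧
      (∀ a : A, w (a • t) • t = a • t) ∧ ∀ y, w (w y • t) = w y := by
  let φ : A →ₗ[k] M := (LinearMap.toSpanSingleton A M t).restrictScalars k
  have hφa : ∀ a : A, φ a = a • t := fun a => rfl
  have hφg : ∀ (n : ℤ) (a : A), g.pr n (φ a) = φ (gA.pr n a) := by
    intro n a
    rw [hφa, hφa, pr_smul_homog g n 0 a t ht, sub_zero]
  obtain ⟨r, hr⟩ := LinearMap.exists_rightInverse_of_surjective φ.rangeRestrict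
    (LinearMap.range_rangeRestrict φ)
  obtain ⟨w₀, hw₀⟩ := LinearMap.exists_extend r
  have hw₀' : ∀ a : A, φ (w₀ (φ a)) = φ a := by
    intro a
    have h1 : w₀ (φ a) = r (φ.rangeRestrict a) := by
      have := LinearMap.congr_fun hw₀ (φ.rangeRestrict a)
      exact this
    have h2 := LinearMap.congr_fun hr (φ.rangeRestrict a)
    have h3 := congrArg (fun y : LinearMap.range φ => (y : M)) h2
    rw [h1]
    exact h3
  let w₁ : M →ₗ[k] A := ∑ i ∈ supp g.toGr, gA.pr i ∘ₗ w₀ ∘ₗ g.pr i
  have hw₁a : ∀ y, w₁ y = ∑ i ∈ supp g.toGr, gA.pr i (w₀ (g.pr i y)) := by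
    intro y
    simp only [w₁, LinearMap.sum_apply, LinearMap.comp_apply]
  have hw₁g : ∀ n y, gA.pr n (w₁ y) = w₁ (g.pr n y) := by
    intro n y
    rw [hw₁a, hw₁a, map_sum]
    refine Finset.sum_congr rfl fun i _ => ?_
    by_cases h : n = i
    · subst h
      rw [gA.same, g.same]
    · rw [gA.diff n i _ h, g.diff i n _ (Ne.symm h), map_zero, map_zero]
  have hw₁φ : ∀ a : A, φ (w₁ (φ a)) = φ a := by
    intro a
    rw [hw₁a, map_sum]
    have h : ∀ i ∈ supp g.toGr, φ (gA.pr i (w₀ (g.pr i (φ a)))) = g.pr i (φ a) := by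
      intro i _
      rw [← hφg, hφg i a, hw₀', ← hφg, g.same]
    rw [Finset.sum_congr rfl h, supp_total]
  refine ⟨w₁ ∘ₗ φ ∘ₗ w₁, ?_, ?_, ?_⟩
  · intro n y
    simp only [LinearMap.comp_apply]
    rw [hw₁g, hφg, hw₁g]
  · intro a
    simp only [LinearMap.comp_apply]
    rw [← hφa, ← hφa, hw₁φ, hw₁φ]
  · intro y
    simp only [LinearMap.comp_apply]
    rw [← hφa, hw₁φ, hw₁φ]

/-- `w` is linear on elements of the image of high degree. The difference
`w (a • y) - a * w y` is killed by `t`. Reduce to homogeneous `a` (of degree `i`) and homogeneous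
`y` (of degree `j`, where `j ≥ j0`, otherwise it is zero; all `g.pr j y` are in the image): for
`i < 0` and for `0 < i < m` one has `a = 0`; for `i = 0` the element `a` is a scalar; for `i ≥ m`
the difference is homogeneous of degree `i + j > p`, so it is zero by `hN`. -/
lemma w_linear (g : GM gA M) (t : M) (w : M →ₗ[k] A)
    (hw : ∀ n y, gA.pr n (w y) = w (g.pr n y)) (hwt : ∀ a : A, w (a • t) • t = a • t)
    (p : ℕ) (hN : ∀ i : ℤ, p < i → ∀ x : A, gA.pr i x = x → x • t = 0 → x = 0)
    (j0 : ℤ) (hj0 : p < j0 + m) (y : M) (hy : ∀ j, ∃ a : A, a • t = g.pr j y)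
    (hlow : ∀ j, j < j0 → g.pr j y = 0) (a : A) : w (a • y) = a * w y := by
  have key : ∀ i j : ℤ, w (gA.pr i a • g.pr j y) = gA.pr i a * w (g.pr j y) := by
    intro i j
    rcases lt_or_ge j j0 with hj | hj
    · rw [hlow j hj, smul_zero, map_zero, mul_zero]
    rcases lt_trichotomy i 0 with hi | hi | hi
    · rw [gA.neg i hi, LinearMap.zero_apply, zero_smul, map_zero, zero_mul]
    · subst hi
      obtain ⟨c, hc⟩ := gA.zero a
      rw [hc, algebraMap_smul, map_smul, Algebra.smul_def]
    rcases lt_or_ge i (m : ℤ) with him | him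
    · rw [gA.gap i hi him, LinearMap.zero_apply, zero_smul, map_zero, zero_mul]
    obtain ⟨b, hb⟩ := hy j
    rw [← sub_eq_zero]
    apply hN (i + j) (by omega)
    · rw [map_sub, hw, g.smul, g.same, gA.mul, hw, g.same]
    · have h1 : w (g.pr j y) • t = g.pr j y := by
        rw [← hb, hwt]
      have h2 : w (gA.pr i a • g.pr j y) • t = gA.pr i a • g.pr j y := by
        rw [← hb, ← mul_smul, hwt]
      rw [sub_smul, h2, mul_smul, h1, sub_self]
  have h1 : w (a • y) = ∑ i ∈ supp gA.toGr, ∑ j ∈ supp g.toGr, w (gA.pr i a • g.pr j y) := by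
    rw [Finset.sum_congr rfl fun i _ => (map_sum w (fun j => gA.pr i a • g.pr j y) _).symm]
    rw [← map_sum]
    congr 1
    rw [Finset.sum_congr rfl fun i _ =>
      (Finset.smul_sum (r := gA.pr i a) (f := fun j => g.pr j y) (s := supp g.toGr)).symm]
    rw [supp_total, ← Finset.sum_smul, supp_total]
  have h2 : a * w y = ∑ i ∈ supp gA.toGr, ∑ j ∈ supp g.toGr, gA.pr i a * w (g.pr j y) := by
    rw [Finset.sum_congr rfl fun i _ =>
      (Finset.mul_sum (supp g.toGr) (fun j => w (g.pr j y)) (gA.pr i a)).symm]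
    rw [← map_sum, supp_total, ← Finset.sum_mul, supp_total]
  rw [h1, h2]
  exact Finset.sum_congr rfl fun i _ => Finset.sum_congr rfl fun j _ => key i j

/-- An element whose component of degree `0` is `1` is a unit: `1 - u` is nilpotent. -/
lemma isUnit_of_pr (gA : GA k A s m) (u : A) (hu : gA.pr 0 u = 1) : IsUnit u := by
  have hv0 : gA.pr 0 (1 - u) = 0 := by
    rw [map_sub, gA.one, hu, sub_self]
  have key : ∀ n : ℕ, ∀ j : ℤ, j < n → gA.pr j ((1 - u) ^ n) = 0 := by
    intro n
    induction n with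
    | zero =>
      intro j hj
      rw [gA.neg j (by simpa using hj), LinearMap.zero_apply]
    | succ n ih =>
      intro j hj
      rw [pow_succ', Inv_pr_mul]
      refine Finset.sum_eq_zero fun l _ => ?_
      rcases lt_trichotomy l 0 with hl | hl | hl
      · rw [gA.neg l hl, LinearMap.zero_apply, zero_mul]
      · subst hl
        rw [hv0, zero_mul]
      · rw [ih (j - l) (by push_cast at hj; omega), mul_zero]
  have hnil : (1 - u) ^ (s + 1) = 0 := by
    apply gA.sep
    intro i
    rcases lt_or_ge i ((s + 1 : ℕ) : ℤ) with hi | hi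
    · exact key _ i hi
    · rw [gA.top i (by push_cast at hi; omega), LinearMap.zero_apply]
  have h := IsNilpotent.isUnit_one_sub (⟨s + 1, hnil⟩ : IsNilpotent (1 - u))
  rwa [sub_sub_cancel] at h

/-- If `n * u = n` for some `n ≠ 0` then the component of degree `0` of `u` is `1`. Take the
smallest `i` with `gA.pr i n ≠ 0`; the component of degree `i` of `n * u` is
`gA.pr i n * gA.pr 0 u`, and `gA.pr 0 u` is a scalar. -/
lemma pr_of_fix (gA : GA k A s m) (n u : A) (hn : n ≠ 0) (h : n * u = n) : gA.pr 0 u = 1 := by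
  classical
  have hex : ∃ i : ℕ, gA.pr (i : ℤ) n ≠ 0 := by
    by_contra hcon
    push Not at hcon
    apply hn
    apply gA.sep
    intro i
    rcases lt_or_ge i 0 with hi | hi
    · rw [gA.neg i hi, LinearMap.zero_apply]
    · have := hcon i.toNat
      rwa [Int.toNat_of_nonneg hi] at this
  have hi := Nat.find_spec hex
  have hmin := fun l => @Nat.find_min _ _ hex l
  set i := Nat.find hex with hidef
  have h1 : gA.pr (i : ℤ) n = gA.pr (i : ℤ) n * gA.pr 0 u := by
    conv_lhs => rw [← h]
    rw [Inv_pr_mul, Finset.sum_eq_single (i : ℤ)]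
    · rw [sub_self]
    · intro l _ hl
      rcases lt_trichotomy l (i : ℤ) with hl' | hl' | hl'
      · rcases lt_or_ge l 0 with h0 | h0
        · rw [gA.neg l h0, LinearMap.zero_apply, zero_mul]
        · have h2 := hmin l.toNat (by omega)
          rw [not_not, Int.toNat_of_nonneg h0] at h2
          rw [h2, zero_mul]
      · exact absurd hl' hl
      · rw [gA.neg ((i : ℤ) - l) (by omega), LinearMap.zero_apply, mul_zero]
    · intro hout
      rw [supp_out gA.toGr _ hout, LinearMap.zero_apply, zero_mul]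
  obtain ⟨c, hc⟩ := gA.zero u
  rw [hc, ← Algebra.commutes, ← Algebra.smul_def] at h1
  have h2 : (c - 1) • gA.pr (i : ℤ) n = 0 := by
    rw [sub_smul, one_smul, ← h1, sub_self]
  have h3 : c - 1 = 0 := (smul_eq_zero.1 h2).resolve_right hi
  rw [hc, sub_eq_zero.1 h3, map_one]

end Pool.Agent.TGr
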