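import Mathlib

set_option autoImplicit false

/-! The numerical consequence. -/

namespace Pool.Agent.TGr

/-- Reversed sequence. -/
def rv (s : ℕ) (h : ℕ → ℕ) (a : ℕ) : ℕ := if a ≤ s then h (s - a) else 0

/-- Let `r` be the largest index with `u r ≠ 0` (it exists, compare the coefficients of index `0`
when `h s ≠ 0`). The coefficient of index `r + s ≤ 3 * s` on the left is `u r * h s ≠ 0`, on the
right it is zero if `r + s > 2 * s`; so `r ≤ s`. The coefficient of index `2 * s` is `u s * h s` on
the left and `h 0 * h 0 = 1` on the right. The coefficient of index `2 * s - i` is at least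
`u s * h (s - i)` on the left and `0` on the right when `0 < i < m`. -/
theorem num (s m : ℕ) (u h : ℕ → ℕ) (h0 : h 0 = 1) (hs : h s ≠ 0) (htop : ∀ i, s < i → h i = 0)
    (hgap : ∀ i, 0 < i → i < m → h i = 0) (hu : ∀ r, 2 * s < r → u r = 0)
    (hid : ∀ n, n ≤ 3 * s → ∑ p ∈ Finset.HasAntidiagonal.antidiagonal n, u p.1 * h p.2 =
      ∑ p ∈ Finset.HasAntidiagonal.antidiagonal n, rv s h p.1 * rv s h p.2) :
    h s = 1 ∧ ∀ i, 0 < i → i < m → i < s → h (s - i) = 0 := by
  have hu' : ∀ r, s < r → u r = 0 := by
    intro r hr
    by_cases h2 : 2 * s < r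
    · exact hu r h2
    have e := hid (r + s) (by omega)
    have r0 : ∑ p ∈ Finset.HasAntidiagonal.antidiagonal (r + s), rv s h p.1 * rv s h p.2 = 0 := by
      apply Finset.sum_eq_zero
      rintro ⟨a, b⟩ hab
      rw [Finset.HasAntidiagonal.mem_antidiagonal] at hab
      simp only at hab ⊢
      unfold rv
      by_cases ha : a ≤ s
      · rw [if_neg (show ¬ b ≤ s by omega), mul_zero]
      · rw [if_neg ha, zero_mul]
    rw [r0] at e
    have h3 := (Finset.sum_eq_zero_iff.1 e) (r, s) (by simp)
    simp only at h3
    rcases Nat.mul_eq_zero.1 h3 with h4 | h4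
    · exact h4
    · exact absurd h4 hs
  have e2 := hid (2 * s) (by omega)
  have l2 : ∑ p ∈ Finset.HasAntidiagonal.antidiagonal (2 * s), u p.1 * h p.2 = u s * h s := by
    rw [Finset.sum_eq_single (s, s)]
    · rintro ⟨a, b⟩ hab hne
      rw [Finset.HasAntidiagonal.mem_antidiagonal] at hab
      simp only at hab ⊢
      by_cases ha : s < a
      · rw [hu' a ha, zero_mul]
      · have hb : s < b := by
          by_contra hb
          apply hne
          have h1 : a = s := by omega
          have h2 : b = s := by omega
          rw [h1, h2]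
        rw [htop b hb, mul_zero]
    · intro hn
      exfalso
      apply hn
      rw [Finset.HasAntidiagonal.mem_antidiagonal]
      ring
  have r2 : ∑ p ∈ Finset.HasAntidiagonal.antidiagonal (2 * s), rv s h p.1 * rv s h p.2 = 1 := by
    rw [Finset.sum_eq_single (s, s)]
    · simp [rv, h0]
    · rintro ⟨a, b⟩ hab hne
      rw [Finset.HasAntidiagonal.mem_antidiagonal] at hab
      simp only at hab ⊢
      unfold rv
      by_cases ha : a ≤ s
      · have hb : ¬ b ≤ s := by
          intro hb
          apply hne
          have h1 : a = s := by omega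
          have h2 : b = s := by omega
          rw [h1, h2]
        rw [if_neg hb, mul_zero]
      · rw [if_neg ha, zero_mul]
    · intro hn
      exfalso
      apply hn
      rw [Finset.HasAntidiagonal.mem_antidiagonal]
      ring
  rw [l2, r2] at e2
  have hus : u s = 1 := Nat.eq_one_of_mul_eq_one_right e2
  have hhs : h s = 1 := Nat.eq_one_of_mul_eq_one_left e2
  refine ⟨hhs, ?_⟩
  intro i hi him his
  have e3 := hid (2 * s - i) (by omega)
  have r3 : ∑ p ∈ Finset.HasAntidiagonal.antidiagonal (2 * s - i),
      rv s h p.1 * rv s h p.2 = 0 := by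
    apply Finset.sum_eq_zero
    rintro ⟨a, b⟩ hab
    rw [Finset.HasAntidiagonal.mem_antidiagonal] at hab
    simp only at hab ⊢
    unfold rv
    by_cases ha : a ≤ s
    · by_cases hb : b ≤ s
      · rw [if_pos ha, if_pos hb]
        by_cases h1 : s - a = 0
        · have h2 : s - b = i := by omega
          rw [h2, hgap i hi him, mul_zero]
        · rw [hgap (s - a) (by omega) (by omega), zero_mul]
      · rw [if_neg hb, mul_zero]
    · rw [if_neg ha, zero_mul]
  rw [r3] at e3
  have h3 := (Finset.sum_eq_zero_iff.1 e3) (s, s - i) (by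
    rw [Finset.HasAntidiagonal.mem_antidiagonal]
    simp only
    omega)
  simp only [hus, one_mul] at h3
  exact h3

end Pool.Agent.TGr
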