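import Pool.Agent.Lib_TGr.Free

set_option autoImplicit false

/-! Pairings between graded pieces. -/

namespace Pool.Agent.TGr

section linear

variable {k : Type} [Field k] {V W : Type} [AddCommGroup V] [Module k V] [FiniteDimensional k V]
  [AddCommGroup W] [Module k W] [FiniteDimensional k W]

lemma pair_le (B : V →ₗ[k] Module.Dual k W) (h : ∀ v, (∀ w, B v w = 0) → v = 0) :
    Module.finrank k V ≤ Module.finrank k W := by
  rw [← Subspace.dual_finrank_eq (K := k) (V := W)]
  refine LinearMap.finrank_le_finrank_of_injective (f := B) ?_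
  rw [← LinearMap.ker_eq_bot, LinearMap.ker_eq_bot']
  intro v hv
  exact h v fun w => by rw [hv]; rfl

lemma pair_symm (B : V →ₗ[k] Module.Dual k W) (h : ∀ v, (∀ w, B v w = 0) → v = 0)
    (hd : Module.finrank k V = Module.finrank k W) (w : W) (hw : ∀ v, B v w = 0) : w = 0 := by
  have hinj : Function.Injective B := by
    rw [← LinearMap.ker_eq_bot, LinearMap.ker_eq_bot']
    intro v hv
    exact h v fun w => by rw [hv]; rfl
  have hsur : Function.Surjective B :=
    (LinearMap.injective_iff_surjective_of_finrank_eq_finrank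
      (hd.trans (Subspace.dual_finrank_eq (K := k) (V := W)).symm)).1 hinj
  rw [← Module.forall_dual_apply_eq_zero_iff k w]
  intro φ
  obtain ⟨v, rfl⟩ := hsur φ
  exact hw v

end linear

variable {k : Type} [Field k] {A : Type} [Ring A] [Algebra k A] [FiniteDimensional k A] {s m : ℕ}
  (gA : GA k A s m) (f : Module.Dual k A)

/-- the pairing of the degrees `i` and `j` -/
noncomputable def pairing (i j : ℤ) :
    LinearMap.range (gA.pr i) →ₗ[k] Module.Dual k (LinearMap.range (gA.pr j)) :=
  LinearMap.mk₂ k (fun x y => f (x.1 * y.1))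
    (fun x x' y => by rw [Submodule.coe_add, add_mul, map_add])
    (fun c x y => by rw [Submodule.coe_smul, smul_mul_assoc, map_smul])
    (fun x y y' => by rw [Submodule.coe_add, mul_add, map_add])
    (fun c x y => by rw [Submodule.coe_smul, mul_smul_comm, map_smul])

/-- the pairing with the factors interchanged -/
noncomputable def pairing' (i j : ℤ) :
    LinearMap.range (gA.pr i) →ₗ[k] Module.Dual k (LinearMap.range (gA.pr j)) :=
  LinearMap.mk₂ k (fun x y => f (y.1 * x.1))
    (fun x x' y => by rw [Submodule.coe_add, mul_add, map_add])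
    (fun c x y => by rw [Submodule.coe_smul, mul_smul_comm, map_smul])
    (fun x y y' => by rw [Submodule.coe_add, add_mul, map_add])
    (fun c x y => by rw [Submodule.coe_smul, smul_mul_assoc, map_smul])

variable {gA f}

omit [FiniteDimensional k A] in
lemma mem_range_pr (i : ℤ) (x : A) : x ∈ LinearMap.range (gA.pr i) ↔ gA.pr i x = x := by
  constructor
  · rintro ⟨y, rfl⟩
    exact gA.same _ _
  · intro h
    exact ⟨x, h⟩

/-- Right annihilation: ranks. -/
lemma rk_le_right (i j : ℤ) (h : ∀ x, gA.pr i x = x → (∀ y, gA.pr j y = y → f (x * y) = 0) → x = 0) :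
    rk (gA.pr i) ≤ rk (gA.pr j) := by
  refine pair_le (pairing gA f i j) fun x hx => ?_
  refine Subtype.ext (h x.1 ((mem_range_pr i _).1 x.2) fun y hy => ?_)
  exact hx ⟨y, (mem_range_pr j _).2 hy⟩

/-- Left annihilation: ranks. -/
lemma rk_le_left (i j : ℤ) (h : ∀ x, gA.pr i x = x → (∀ y, gA.pr j y = y → f (y * x) = 0) → x = 0) :
    rk (gA.pr i) ≤ rk (gA.pr j) := by
  refine pair_le (pairing' gA f i j) fun x hx => ?_
  refine Subtype.ext (h x.1 ((mem_range_pr i _).1 x.2) fun y hy => ?_)
  exact hx ⟨y, (mem_range_pr j _).2 hy⟩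

/-- From right to left, for equal ranks. -/
lemma left_of_right (i j : ℤ) (hr : rk (gA.pr i) = rk (gA.pr j))
    (h : ∀ x, gA.pr i x = x → (∀ y, gA.pr j y = y → f (x * y) = 0) → x = 0) :
    ∀ y, gA.pr j y = y → (∀ x, gA.pr i x = x → f (x * y) = 0) → y = 0 := by
  intro y hy hxy
  have h1 := pair_symm (pairing gA f i j) (fun x hx => Subtype.ext
    (h x.1 ((mem_range_pr i _).1 x.2) fun y hy => hx ⟨y, (mem_range_pr j _).2 hy⟩)) hr
    ⟨y, (mem_range_pr j _).2 hy⟩ (fun x => hxy x.1 ((mem_range_pr i _).1 x.2))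
  exact congrArg Subtype.val h1

/-- From left to right, for equal ranks. -/
lemma right_of_left (i j : ℤ) (hr : rk (gA.pr i) = rk (gA.pr j))
    (h : ∀ x, gA.pr i x = x → (∀ y, gA.pr j y = y → f (y * x) = 0) → x = 0) :
    ∀ y, gA.pr j y = y → (∀ x, gA.pr i x = x → f (y * x) = 0) → y = 0 := by
  intro y hy hxy
  have h1 := pair_symm (pairing' gA f i j) (fun x hx => Subtype.ext
    (h x.1 ((mem_range_pr i _).1 x.2) fun y hy => hx ⟨y, (mem_range_pr j _).2 hy⟩)) hr
    ⟨y, (mem_range_pr j _).2 hy⟩ (fun x => hxy x.1 ((mem_range_pr i _).1 x.2))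
  exact congrArg Subtype.val h1

end Pool.Agent.TGr
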