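import Pool.Agent.Lib_TGr.Num

set_option autoImplicit false

/-! The Hilbert function is symmetric, if it is symmetric in small degrees. -/

namespace Pool.Agent.TGr

open Polynomial in
private lemma Pal_coeff_reflect (s : ℕ) (p : ℤ[X]) {i : ℕ} (hi : i ≤ s) :
    (reflect s p).coeff i = p.coeff (s - i) := by
  rw [coeff_reflect, revAt_le hi]

open Polynomial in
private lemma Pal_natDegree_reflect (s : ℕ) (p : ℤ[X]) (hp : p.natDegree ≤ s) :
    (reflect s p).natDegree ≤ s := by
  rw [natDegree_le_iff_coeff_eq_zero]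
  intro N hN
  rw [coeff_reflect, revAt_eq_self_of_lt hN]
  exact coeff_eq_zero_of_natDegree_lt (by omega)

open Polynomial in
private lemma Pal_reflect_reflect (s : ℕ) (p : ℤ[X]) : reflect s (reflect s p) = p := by
  ext i
  rw [coeff_reflect, coeff_reflect, revAt_invol]

open Polynomial in
private lemma Pal_eval_reflect (s : ℕ) (p : ℤ[X]) (hp : p.natDegree ≤ s) :
    (reflect s p).eval 1 = p.eval 1 := by
  rw [eval_eq_sum_range' (n := s + 1) (by have := Pal_natDegree_reflect s p hp; omega),
    eval_eq_sum_range' (n := s + 1) (by omega)]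
  simp only [one_pow, mul_one]
  rw [← Finset.sum_range_reflect (fun i => p.coeff i)]
  apply Finset.sum_congr rfl
  intro i hi
  rw [Finset.mem_range] at hi
  rw [Pal_coeff_reflect s p (by omega)]
  congr 1

open Polynomial in
private lemma Pal_natDegree_eq (s a : ℕ) (p : ℤ[X]) (hp : p ≠ 0) (ha : p.natTrailingDegree = a)
    (hdeg : p.natDegree ≤ s) (hanti : reflect s p = -p) :
    a ≤ s ∧ p.natDegree = s - a := by
  have hca : p.coeff a ≠ 0 := by
    rw [← ha]
    exact (trailingCoeff_nonzero_iff_nonzero).2 hp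
  have has : a ≤ s := by
    by_contra hcon
    exact hca (coeff_eq_zero_of_natDegree_lt (by omega))
  have hanti' : ∀ i, i ≤ s → p.coeff (s - i) = -p.coeff i := by
    intro i hi
    rw [← Pal_coeff_reflect s p hi, hanti, coeff_neg]
  refine ⟨has, natDegree_eq_of_le_of_coeff_ne_zero ?_ ?_⟩
  · rw [natDegree_le_iff_coeff_eq_zero]
    intro N hN
    by_cases hNs : N ≤ s
    · have h1 := hanti' (s - N) (by omega)
      rw [show s - (s - N) = N by omega] at h1
      rw [h1, coeff_eq_zero_of_lt_natTrailingDegree (by omega), neg_zero]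
    · exact coeff_eq_zero_of_natDegree_lt (by omega)
  · rw [hanti' a has]
    exact neg_ne_zero.2 hca

open Polynomial in
private lemma Pal_core (s : ℕ) (H U : ℤ[X]) (hdeg : H.natDegree ≤ s) (h0 : H.coeff 0 = 1)
    (hs : H.coeff s = 1) (hone : H.eval 1 ≠ 0) (hU : U * H = reflect s H * reflect s H)
    (hsmall : ∀ i, 6 * i + 3 ≤ s → H.coeff i = H.coeff (s - i)) : reflect s H = H := by
  by_contra hne
  -- the polynomial `D`
  obtain ⟨D, hD⟩ : ∃ D, D = reflect s H - H := ⟨_, rfl⟩
  have hH' : reflect s H = H + D := by rw [hD]; ring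
  have hD0 : D ≠ 0 := by
    rw [hD]
    exact sub_ne_zero.2 hne
  have hDdeg : D.natDegree ≤ s := by
    rw [hD]
    exact (natDegree_sub_le _ _).trans (max_le (Pal_natDegree_reflect s H hdeg) hdeg)
  have hDanti : reflect s D = -D := by
    rw [hD, reflect_sub, Pal_reflect_reflect]
    ring
  obtain ⟨c, hc⟩ : ∃ c, D.natTrailingDegree = c := ⟨_, rfl⟩
  obtain ⟨hcs, hDc⟩ := Pal_natDegree_eq s c D hD0 hc hDdeg hDanti
  -- the polynomial `R`
  obtain ⟨R, hR⟩ : ∃ R, R = U - H - 2 * D := ⟨_, rfl⟩
  have hHR : H * R = D * D := by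
    rw [hH'] at hU
    rw [hR]
    linear_combination hU
  have hH0 : H ≠ 0 := by
    intro h
    rw [h, coeff_zero] at h0
    exact zero_ne_one h0
  have hDD : D * D ≠ 0 := mul_ne_zero hD0 hD0
  have hR0 : R ≠ 0 := by
    intro h
    rw [h, mul_zero] at hHR
    exact hDD hHR.symm
  have hHd : H.natDegree = s :=
    natDegree_eq_of_le_of_coeff_ne_zero hdeg (by rw [hs]; exact one_ne_zero)
  have hHt : H.natTrailingDegree = 0 := by
    apply natTrailingDegree_eq_zero_of_constantCoeff_ne_zero
    rw [constantCoeff_apply, h0]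
    exact one_ne_zero
  have hRd : s + R.natDegree = (s - c) + (s - c) := by
    have := congrArg natDegree hHR
    rw [natDegree_mul hH0 hR0, natDegree_mul hD0 hD0, hHd, hDc] at this
    exact this
  have hRt : R.natTrailingDegree = c + c := by
    have := congrArg natTrailingDegree hHR
    rw [natTrailingDegree_mul hH0 hR0, natTrailingDegree_mul hD0 hD0, hHt, hc, zero_add] at this
    exact this
  -- the reversal of `R`
  obtain ⟨R', hR'⟩ : ∃ R', R' = reflect s R := ⟨_, rfl⟩
  have hRs : R.natDegree ≤ s := by omega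
  have hHR' : (H + D) * R' = D * D := by
    have h1 := congrArg (reflect (s + s)) hHR
    rw [reflect_mul H R hdeg hRs, reflect_mul D D hDdeg hDdeg, hDanti, ← hR', hH'] at h1
    rw [h1]
    ring
  have hR'0 : R' ≠ 0 := by
    intro h
    rw [h, mul_zero] at hHR'
    exact hDD hHR'.symm
  have hHD0 : H + D ≠ 0 := by
    intro h
    rw [h, zero_mul] at hHR'
    exact hDD hHR'.symm
  have hHDd : (H + D).natDegree = s := by
    rw [← hH']
    apply natDegree_eq_of_le_of_coeff_ne_zero (Pal_natDegree_reflect s H hdeg)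
    rw [Pal_coeff_reflect s H le_rfl, Nat.sub_self, h0]
    exact one_ne_zero
  have hHDt : (H + D).natTrailingDegree = 0 := by
    apply natTrailingDegree_eq_zero_of_constantCoeff_ne_zero
    rw [constantCoeff_apply, ← hH', Pal_coeff_reflect s H (Nat.zero_le _), Nat.sub_zero, hs]
    exact one_ne_zero
  have hR'd : s + R'.natDegree = (s - c) + (s - c) := by
    have := congrArg natDegree hHR'
    rw [natDegree_mul hHD0 hR'0, natDegree_mul hD0 hD0, hHDd, hDc] at this
    exact this
  have hR't : R'.natTrailingDegree = c + c := by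
    have := congrArg natTrailingDegree hHR'
    rw [natTrailingDegree_mul hHD0 hR'0, natTrailingDegree_mul hD0 hD0, hHDt, hc, zero_add] at this
    exact this
  -- the polynomial `F`
  obtain ⟨F, hF⟩ : ∃ F, F = R - R' := ⟨_, rfl⟩
  have hHF : H * F = D * R' := by
    rw [hF]
    linear_combination hHR - hHR'
  have hF0 : F ≠ 0 := by
    intro h
    rw [h, mul_zero] at hHF
    exact mul_ne_zero hD0 hR'0 hHF.symm
  have hFd : s + F.natDegree = (s - c) + R'.natDegree := by
    have := congrArg natDegree hHF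
    rw [natDegree_mul hH0 hF0, natDegree_mul hD0 hR'0, hHd, hDc] at this
    exact this
  have hFt : F.natTrailingDegree = c + (c + c) := by
    have := congrArg natTrailingDegree hHF
    rw [natTrailingDegree_mul hH0 hF0, natTrailingDegree_mul hD0 hR'0, hHt, hc, hR't,
      zero_add] at this
    exact this
  have hFle := natTrailingDegree_le_natDegree F
  have hFanti : reflect s F = -F := by
    rw [hF, reflect_sub, hR', Pal_reflect_reflect]
    ring
  have hFanti' : ∀ i, i ≤ s → F.coeff (s - i) = -F.coeff i := by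
    intro i hi
    rw [← Pal_coeff_reflect s F hi, hFanti, coeff_neg]
  have hFc : F.coeff (3 * c) ≠ 0 := by
    have : 3 * c = F.natTrailingDegree := by omega
    rw [this]
    exact (trailingCoeff_nonzero_iff_nonzero).2 hF0
  have hFlow : ∀ i, i < 3 * c → F.coeff i = 0 := by
    intro i hi
    exact coeff_eq_zero_of_lt_natTrailingDegree (by omega)
  have hDcc : D.coeff c ≠ 0 := by
    rw [← hc]
    exact (trailingCoeff_nonzero_iff_nonzero).2 hD0
  have hs6 : s < 6 * c + 3 := by
    by_contra hcon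
    apply hDcc
    rw [hD, coeff_sub, Pal_coeff_reflect s H hcs, ← hsmall c (by omega), sub_self]
  have h6s : 6 * c ≤ s := by omega
  -- the factor `X - 1`
  obtain ⟨G, hG, hG1⟩ : ∃ G : ℤ[X], F = (X - 1) * G ∧ G.eval 1 ≠ 0 := by
    obtain ⟨f, hf⟩ : ∃ f, F.coeff (3 * c) = f := ⟨_, rfl⟩
    rw [hf] at hFc
    rcases (by omega : s = 6 * c ∨ s = 6 * c + 1 ∨ s = 6 * c + 2) with h | h | h
    · exfalso
      have h1 := hFanti' (3 * c) (by omega)
      rw [show s - 3 * c = 3 * c by omega, hf] at h1
      apply hFc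
      omega
    · refine ⟨-(C f * X ^ (3 * c)), ?_, ?_⟩
      · have h1 := hFanti' (3 * c) (by omega)
        rw [show s - 3 * c = 3 * c + 1 by omega, hf] at h1
        have h2 : (X - 1) * -(C f * X ^ (3 * c)) = C f * X ^ (3 * c) - C f * X ^ (3 * c + 1) := by
          ring
        rw [h2]
        ext i
        rw [coeff_sub, coeff_C_mul_X_pow, coeff_C_mul_X_pow]
        rcases lt_trichotomy i (3 * c) with hi | hi | hi
        · rw [hFlow i hi, if_neg (by omega), if_neg (by omega), sub_zero]
        · rw [hi, if_pos rfl, if_neg (by omega), sub_zero, hf]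
        · rw [if_neg (by omega)]
          by_cases hi2 : i = 3 * c + 1
          · rw [hi2, if_pos rfl, h1, zero_sub]
          · rw [if_neg hi2, sub_zero]
            exact coeff_eq_zero_of_natDegree_lt (by omega)
      · simp [hFc]
    · refine ⟨-(C f * X ^ (3 * c) * (1 + X)), ?_, ?_⟩
      · have h1 := hFanti' (3 * c) (by omega)
        rw [show s - 3 * c = 3 * c + 2 by omega, hf] at h1
        have h3 := hFanti' (3 * c + 1) (by omega)
        rw [show s - (3 * c + 1) = 3 * c + 1 by omega] at h3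
        have h4 : F.coeff (3 * c + 1) = 0 := by omega
        have h2 : (X - 1) * -(C f * X ^ (3 * c) * (1 + X)) =
            C f * X ^ (3 * c) - C f * X ^ (3 * c + 2) := by
          ring
        rw [h2]
        ext i
        rw [coeff_sub, coeff_C_mul_X_pow, coeff_C_mul_X_pow]
        rcases lt_trichotomy i (3 * c) with hi | hi | hi
        · rw [hFlow i hi, if_neg (by omega), if_neg (by omega), sub_zero]
        · rw [hi, if_pos rfl, if_neg (by omega), sub_zero, hf]
        · rw [if_neg (by omega)]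
          by_cases hi2 : i = 3 * c + 2
          · rw [hi2, if_pos rfl, h1, zero_sub]
          · rw [if_neg hi2, sub_zero]
            by_cases hi3 : i = 3 * c + 1
            · rw [hi3, h4]
            · exact coeff_eq_zero_of_natDegree_lt (by omega)
      · simp [hFc]
  -- evaluation at one
  have hD1 : D.eval 1 = 0 := by
    rw [hD, eval_sub, Pal_eval_reflect s H hdeg, sub_self]
  have hR1 : R.eval 1 = 0 := by
    have := congrArg (eval 1) hHR
    rw [eval_mul, eval_mul, hD1, mul_zero] at this
    exact (mul_eq_zero.1 this).resolve_left hone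
  have hR'1 : R'.eval 1 = 0 := by
    rw [hR', Pal_eval_reflect s R hRs, hR1]
  obtain ⟨r1, hr1⟩ := dvd_iff_isRoot.2 (show IsRoot R 1 from hR1)
  obtain ⟨r2, hr2⟩ := dvd_iff_isRoot.2 (show IsRoot R' 1 from hR'1)
  have hX : (X - C 1 : ℤ[X]) ≠ 0 := X_sub_C_ne_zero 1
  have hC1 : (C 1 : ℤ[X]) = 1 := C_1
  have hHFF : H * (F * F) = R * (R' * R') := by
    apply mul_left_cancel₀ hH0
    calc H * (H * (F * F)) = (H * F) * (H * F) := by ring
      _ = (D * R') * (D * R') := by rw [hHF]
      _ = (D * D) * (R' * R') := by ring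
      _ = (H * R) * (R' * R') := by rw [hHR]
      _ = H * (R * (R' * R')) := by ring
  have hfin : H * (G * G) = (X - C 1) * (r1 * (r2 * r2)) := by
    apply mul_left_cancel₀ (mul_ne_zero hX hX)
    rw [hG, ← hC1] at hHFF
    rw [hr1, hr2] at hHFF
    linear_combination hHFF
  have hfin1 := congrArg (eval 1) hfin
  rw [eval_mul, eval_mul, eval_mul, eval_sub, eval_X, eval_C, sub_self, zero_mul] at hfin1
  rcases mul_eq_zero.1 hfin1 with h | h
  · exact hone h
  · exact hG1 (mul_self_eq_zero.1 h)

open Polynomial in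
private lemma Pal_coeff_sum (N : ℕ) (u : ℕ → ℕ) (hu : ∀ r, N < r → u r = 0) (i : ℕ) :
    (∑ r ∈ Finset.range (N + 1), C (u r : ℤ) * X ^ r : ℤ[X]).coeff i = (u i : ℤ) := by
  rw [finsetSum_coeff]
  simp only [coeff_C_mul_X_pow]
  rw [Finset.sum_ite_eq]
  by_cases hi : i ≤ N
  · rw [if_pos (Finset.mem_range.2 (by omega))]
  · rw [if_neg (by rw [Finset.mem_range]; omega), hu i (by omega), Nat.cast_zero]

/-- Hypotheses as in `num`. Polynomials over the integers: `H = ∑ h i X ^ i`,
`H' = ∑ h (s - i) X ^ i` (`i ≤ s`), `U = ∑ u r X ^ r`; `u r = 0` for `r > s` and `h s = 1` (proof of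
`num`), so `U * H = H' ^ 2`. Let `D = H' - H` and `R = U - H - 2 * D`, so `H * R = D ^ 2`. Suppose
`D ≠ 0` and let `c = natTrailingDegree D`. The coefficients satisfy `D (i) = - D (s - i)`, so
`natDegree D = s - c`, and by `H * R = D ^ 2` (`H` is monic of degree `s` with constant term `1`)
`R` has degree `s - 2 c` and trailing degree `2 c`. Let `R'` be the reversal of `R` with respect to
the degree `s` (`R' (i) = R (s - i)`); reversing `H * R = D ^ 2` with respect to the degree `2 s`
gives `H' * R' = D ^ 2`. So `(H + D) * R' = H * R` and with `F = R - R'`: `H * F = D * R' ≠ 0`, so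
`F ≠ 0`, and `H * F ^ 2 = R * R' ^ 2`. Comparing degrees and trailing degrees, `F` has degree
`s - 3 c` and trailing degree `3 c`. So `6 c ≤ s`; as `h c ≠ h (s - c)`, the hypothesis `hsmall`
gives `s < 6 c + 3`. So `F = X ^ (3 c) * F1` with `natDegree F1 = s - 6 c ≤ 2`, and
`F (i) = - F (s - i)` gives `F1 = f` (impossible, as then `f = - f`), `F1 = f (1 - X)` or
`F1 = f (1 - X ^ 2)`, `f ≠ 0`. At `X = 1`: `D (1) = 0`, `H (1) ≠ 0`, so `R (1) = R' (1) = 0` and
`(X - 1) ^ 3` divides `R * R' ^ 2 = H * F ^ 2`; cancelling `(X - 1) ^ 2` one gets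
`H (1) * (f * g (1)) ^ 2 = 0`, where `g = 1` or `g = 1 + X`, a contradiction. -/
theorem pal (s : ℕ) (u h : ℕ → ℕ) (h0 : h 0 = 1) (hs : h s ≠ 0) (htop : ∀ i, s < i → h i = 0)
    (hu : ∀ r, 2 * s < r → u r = 0)
    (hid : ∀ n, n ≤ 3 * s → ∑ p ∈ Finset.HasAntidiagonal.antidiagonal n, u p.1 * h p.2 =
      ∑ p ∈ Finset.HasAntidiagonal.antidiagonal n, rv s h p.1 * rv s h p.2)
    (hsmall : ∀ i, 6 * i + 3 ≤ s → h i = h (s - i)) :
    ∀ i, i ≤ s → h i = h (s - i) := by
  have hs1 : h s = 1 := (num s 0 u h h0 hs htop (fun i _ hi => absurd hi (Nat.not_lt_zero i))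
    hu hid).1
  obtain ⟨H, hH⟩ : ∃ H : Polynomial ℤ, H = ∑ r ∈ Finset.range (s + 1),
    Polynomial.C (h r : ℤ) * Polynomial.X ^ r := ⟨_, rfl⟩
  obtain ⟨U, hU⟩ : ∃ U : Polynomial ℤ, U = ∑ r ∈ Finset.range (2 * s + 1),
    Polynomial.C (u r : ℤ) * Polynomial.X ^ r := ⟨_, rfl⟩
  have hHc : ∀ i, H.coeff i = (h i : ℤ) := by
    intro i
    rw [hH]
    exact Pal_coeff_sum s h htop i
  have hUc : ∀ i, U.coeff i = (u i : ℤ) := by
    intro i
    rw [hU]
    exact Pal_coeff_sum (2 * s) u hu i
  have hHd : H.natDegree ≤ s := by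
    rw [Polynomial.natDegree_le_iff_coeff_eq_zero]
    intro N hN
    rw [hHc, htop N hN, Nat.cast_zero]
  have hUd : U.natDegree ≤ 2 * s := by
    rw [Polynomial.natDegree_le_iff_coeff_eq_zero]
    intro N hN
    rw [hUc, hu N hN, Nat.cast_zero]
  have hH'd := Pal_natDegree_reflect s H hHd
  have hH'c : ∀ i, (Polynomial.reflect s H).coeff i = (rv s h i : ℤ) := by
    intro i
    unfold rv
    by_cases hi : i ≤ s
    · rw [Pal_coeff_reflect s H hi, hHc, if_pos hi]
    · rw [Polynomial.coeff_eq_zero_of_natDegree_lt (by omega), if_neg hi, Nat.cast_zero]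
  have hUH : U * H = Polynomial.reflect s H * Polynomial.reflect s H := by
    ext n
    by_cases hn : n ≤ 3 * s
    · rw [Polynomial.coeff_mul, Polynomial.coeff_mul]
      simp only [hUc, hHc, hH'c]
      exact_mod_cast hid n hn
    · rw [Polynomial.coeff_eq_zero_of_natDegree_lt, Polynomial.coeff_eq_zero_of_natDegree_lt]
      · have := Polynomial.natDegree_mul_le (p := Polynomial.reflect s H)
          (q := Polynomial.reflect s H)
        omega
      · have := Polynomial.natDegree_mul_le (p := U) (q := H)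
        omega
  have hone : H.eval 1 ≠ 0 := by
    rw [Polynomial.eval_eq_sum_range' (n := s + 1) (by omega)]
    simp only [one_pow, mul_one, hHc]
    have h1 : (h 0 : ℤ) ≤ ∑ i ∈ Finset.range (s + 1), (h i : ℤ) :=
      Finset.single_le_sum (f := fun i => (h i : ℤ)) (fun i _ => Int.natCast_nonneg _)
        (Finset.mem_range.2 (by omega))
    rw [h0] at h1
    push_cast at h1 ⊢
    omega
  have key := Pal_core s H U hHd (by rw [hHc, h0]; rfl) (by rw [hHc, hs1]; rfl) hone hUH (by
    intro i hi
    rw [hHc, hHc, hsmall i hi])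
  intro i hi
  have h1 := Pal_coeff_reflect s H hi
  rw [key, hHc, hHc] at h1
  exact_mod_cast h1

end Pool.Agent.TGr
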