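import Pool.Agent.Lib_TGr.Inv
import Pool.Agent.Tach.ExtPart

set_option autoImplicit false

/-! The two main steps. -/

namespace Pool.Agent.TGr

open CategoryTheory

variable {k : Type} [Field k] {A : Type} [Ring A] [Algebra k A] [FiniteDimensional k A] {s m : ℕ}
  {gA : GA k A s m} {M : Type} [AddCommGroup M] [Module A M] [Module k M] [IsScalarTower k A M]
  [FiniteDimensional k M]

omit [FiniteDimensional k M] [IsScalarTower k A M] in
private lemma StepA_pr (g : GM gA M) (t : M) (ht : g.pr 0 t = t) (j : ℤ) (a : A) :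
    g.pr j (a • t) = gA.pr j a • t := by
  refine homog_induction gA.toGr (p := fun a => g.pr j (a • t) = gA.pr j a • t) ?_ ?_ ?_ a
  · simp
  · intro x y hx hy
    rw [add_smul, map_add, map_add, add_smul, hx, hy]
  · intro i x hx
    have h1 := g.smul i (j - i) x t
    rw [add_sub_cancel, hx] at h1
    rw [h1]
    by_cases hij : i = j
    · subst hij
      rw [sub_self, ht, hx]
    · have h2 : g.pr (j - i) t = 0 := by
        rw [← ht]
        exact g.diff _ _ _ (by omega)
      have h3 : gA.pr j x = 0 := by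
        rw [← hx]
        exact gA.diff j i x (Ne.symm hij)
      rw [h2, smul_zero, h3, zero_smul]

omit [FiniteDimensional k M] in
/-- the elements killed by `w` in low degrees form a submodule -/
private lemma StepA_smul (g : GM gA M) (t : M) (w : M →ₗ[k] A)
    (hwt : ∀ a : A, w (a • t) • t = a • t) (b : ℤ)
    (hG : ∀ n : ℤ, n < b → ∀ y : M, g.pr n y = y → ∃ a : A, a • t = y) (y : M)
    (hy : ∀ j : ℤ, j < b + m → w (g.pr j y) = 0) (a : A) (j : ℤ) (hj : j < b + m) :
    w (g.pr j (a • y)) = 0 := by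
  refine homog_induction gA.toGr (p := fun a => w (g.pr j (a • y)) = 0) ?_ ?_ ?_ a
  · simp
  · intro x x' hx hx'
    rw [add_smul, map_add, map_add, hx, hx', add_zero]
  · intro i x hx
    have h1 := g.smul i (j - i) x y
    rw [add_sub_cancel, hx] at h1
    rw [h1]
    have hm0 : (0 : ℤ) ≤ (m : ℤ) := Int.natCast_nonneg m
    rcases lt_or_ge i 0 with h0 | h0
    · have h2 : x = 0 := by
        rw [← hx]
        show gA.pr i x = 0
        rw [gA.neg i h0]
        rfl
      rw [h2, zero_smul, map_zero]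
    · rcases lt_or_ge i (m : ℤ) with h3 | h3
      · rcases eq_or_lt_of_le h0 with h4 | h4
        · subst h4
          obtain ⟨c, hc⟩ := gA.zero x
          rw [hx] at hc
          rw [hc, sub_zero, algebraMap_smul, map_smul, hy j hj, smul_zero]
        · have h2 : x = 0 := by
            rw [← hx]
            show gA.pr i x = 0
            rw [gA.gap i h4 h3]
            rfl
          rw [h2, zero_smul, map_zero]
      · obtain ⟨a', ha'⟩ := hG (j - i) (by omega) (g.pr (j - i) y) (g.same _ _)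
        have h5 : w (g.pr (j - i) y) = 0 := hy (j - i) (by omega)
        have h6 : g.pr (j - i) y = 0 := by
          rw [← ha', ← hwt a', ha', h5, zero_smul]
        rw [h6, smul_zero, map_zero]

/-- Let `Z = A • t` and `b = s - q`. Let `w` be as in `exists_w` and
`P = {y | w (g.pr j y) = 0 for all j < b + m}`. `P` is a submodule: for homogeneous `a` of degree
`i ≥ m` and `j < b + m` one has `g.pr j (a • y) = a • g.pr (j - i) y`, where `j - i < b`, so
`g.pr (j - i) y` is in `Z` by `hG` and is killed by `w`, hence zero. `P + Z` is everything: for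
`y` homogeneous of degree `j < b + m` take `y - w y • t`, for `j ≥ b + m` take `y`. If `y ∈ P` is in
`Z`, then `g.pr j y = 0` for `j < b + m` and `w (a • y) = a * w y` (`w_linear`).
Let `L` be the kernel of `A × P → M`, `(a, y) ↦ a • t + y`, and `φ : L → A`, `(a, y) ↦ a + w y`.
It extends to `Θ : A × P → A` (`Tach.ext_extend`). `u = Θ (1, 0)` satisfies `n * u = n` for all `n`
with `n • t = 0`, so `u` is a unit by `pr_of_fix` and `isUnit_of_pr`. With `c y = Θ (0, y) * u⁻¹`
one gets `c y = w y` for `y ∈ P ∩ Z`. Put `h y = y - c y • t`, linear `P → M`, zero on `P ∩ Z`. If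
`y ∈ P`, `y ∉ Z`, then `h y ≠ 0`, so `a • h y = z` for some `a`, and `z ∈ Z`; from
`h (a • y) = z` one gets `a • y ∈ Z`, so `z = h (a • y) = 0`, a contradiction. -/
theorem stepA [CategoryTheory.HasExt.{1} (ModuleCat.{0} A)] (g : GM gA M) (t : M)
    (ht : g.pr 0 t = t) (ht0 : t ≠ 0)
    (hE : Subsingleton (CategoryTheory.Abelian.Ext.{1} (ModuleCat.of A M) (ModuleCat.of A A) 1))
    (hsoc : ∃ z : M, z ≠ 0 ∧ ∀ y : M, y ≠ 0 → ∃ a : A, a • y = z)
    (p q : ℕ) (hpq : p + q < s + 2 * m)
    (hN : ∀ i : ℤ, p < i → ∀ x : A, gA.pr i x = x → x • t = 0 → x = 0)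
    (hG : ∀ n : ℤ, n < s - q → ∀ y : M, g.pr n y = y → ∃ a : A, a • t = y)
    (hinj : ∃ x : A, x ≠ 0 ∧ x • t = 0) :
    ∀ y : M, ∃ a : A, a • t = y := by
  classical
  obtain ⟨w, hw, hwt, hww⟩ := exists_w g t ht
  have hbm : (p : ℤ) < ((s : ℤ) - q + m) + m := by omega
  let P : Submodule A M :=
    { carrier := {y | ∀ j : ℤ, j < (s : ℤ) - q + m → w (g.pr j y) = 0}
      add_mem' := by
        intro x y hx hy j hj
        rw [map_add, map_add, hx j hj, hy j hj, add_zero]
      zero_mem' := by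
        intro j hj
        rw [map_zero, map_zero]
      smul_mem' := by
        intro a y hy j hj
        exact StepA_smul g t w hwt _ hG y hy a j hj }
  have hP : ∀ y, y ∈ P ↔ ∀ j : ℤ, j < (s : ℤ) - q + m → w (g.pr j y) = 0 := fun y => Iff.rfl
  -- elements of the form `y - w y • t` are in `P`
  have hdec : ∀ y : M, y - w y • t ∈ P := by
    intro y j hj
    rw [← hw, map_sub, hww, sub_self, map_zero]
  -- elements of `P` in the image
  have hwy : ∀ (y : M) (a : A), a • t = y → w y • t = y := by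
    rintro y a rfl
    exact hwt a
  have hlin : ∀ y ∈ P, (∃ a : A, a • t = y) → ∀ a : A, w (a • y) = a * w y := by
    rintro y hy ⟨a0, ha0⟩ a
    have hgr : ∀ j, ∃ a : A, a • t = g.pr j y := by
      intro j
      refine ⟨gA.pr j a0, ?_⟩
      rw [← ha0, StepA_pr g t ht]
    refine w_linear g t w hw hwt p hN ((s : ℤ) - q + m) hbm y hgr ?_ a
    intro j hj
    obtain ⟨a1, ha1⟩ := hgr j
    have h1 := hwy _ a1 ha1
    rw [hy j hj, zero_smul] at h1
    exact h1.symm
  let f : (A × P) →ₗ[A] M := (LinearMap.toSpanSingleton A M t).coprod P.subtype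
  have hf : ∀ x : A × P, f x = x.1 • t + (x.2 : M) := by
    intro x
    simp [f]
  have hfs : Function.Surjective f := by
    intro y
    refine ⟨(w y, ⟨y - w y • t, hdec y⟩), ?_⟩
    rw [hf]
    simp
  have hL : ∀ x : LinearMap.ker f, x.1.1 • t + (x.1.2 : M) = 0 := by
    intro x
    rw [← hf]
    exact x.2
  have hLZ : ∀ x : LinearMap.ker f, ∃ a : A, a • t = (x.1.2 : M) := by
    intro x
    refine ⟨-x.1.1, ?_⟩
    rw [neg_smul]
    exact neg_eq_of_add_eq_zero_right (hL x)
  let φ : LinearMap.ker f →ₗ[A] A :=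
    { toFun := fun x => x.1.1 + w (x.1.2 : M)
      map_add' := by
        intro x y
        show x.1.1 + y.1.1 + w ((x.1.2 : M) + (y.1.2 : M)) =
          x.1.1 + w (x.1.2 : M) + (y.1.1 + w (y.1.2 : M))
        rw [map_add]
        abel
      map_smul' := by
        intro a x
        show a * x.1.1 + w (a • (x.1.2 : M)) = a * (x.1.1 + w (x.1.2 : M))
        rw [hlin _ x.1.2.2 (hLZ x), mul_add] }
  obtain ⟨Θ, hΘ⟩ := Tach.ext_extend (LinearMap.ker f).subtype f (Submodule.subtype_injective _)
    hfs (LinearMap.exact_subtype_ker_map f) hE φ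
  have hΘ' : ∀ (a : A) (y : P), a • t + (y : M) = 0 → Θ (a, y) = a + w (y : M) := by
    intro a y h
    exact hΘ ⟨(a, y), by rw [LinearMap.mem_ker, hf]; exact h⟩
  set u : A := Θ (1, 0) with hu
  have hΘa : ∀ a : A, Θ (a, 0) = a * u := by
    intro a
    have h1 : ((a, 0) : A × P) = a • ((1, 0) : A × P) := by
      ext <;> simp
    rw [h1, map_smul, smul_eq_mul]
  have hfix : ∀ n : A, n • t = 0 → n * u = n := by
    intro n hn
    rw [← hΘa]
    have := hΘ' n 0 (by simpa using hn)
    rw [this]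
    simp
  obtain ⟨x0, hx0, hx0t⟩ := hinj
  have hunit : IsUnit u := isUnit_of_pr gA u (pr_of_fix gA x0 u hx0 (hfix x0 hx0t))
  obtain ⟨v, hv⟩ := hunit
  have hvv : u * ((v⁻¹ : Aˣ) : A) = 1 := by
    rw [← hv]
    exact v.mul_inv
  let c : P →ₗ[A] A :=
    { toFun := fun y => Θ (0, y) * ((v⁻¹ : Aˣ) : A)
      map_add' := by
        intro x y
        have h1 : ((0, x + y) : A × P) = (0, x) + (0, y) := by simp
        rw [h1, map_add, add_mul]
      map_smul' := by
        intro a y
        have h1 : ((0, a • y) : A × P) = a • ((0, y) : A × P) := by simp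
        rw [h1, map_smul, smul_eq_mul, mul_assoc]
        rfl }
  have hc : ∀ y : P, (∃ a : A, a • t = (y : M)) → c y = w (y : M) := by
    rintro y ⟨a, ha⟩
    have h1 : w (y : M) • t = (y : M) := hwy _ a ha
    have h2 := hΘ' (-w (y : M)) y (by rw [neg_smul, h1, neg_add_cancel])
    have h3 : ((-w (y : M), y) : A × P) = (-w (y : M), 0) + (0, y) := by simp
    rw [h3, map_add, hΘa, neg_add_cancel] at h2
    have h4 : Θ (0, y) = w (y : M) * u := by
      rw [neg_mul, neg_add_eq_zero] at h2
      exact h2.symm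
    show Θ (0, y) * ((v⁻¹ : Aˣ) : A) = w (y : M)
    rw [h4, mul_assoc, hvv, mul_one]
  have hh0 : ∀ y : P, (∃ a : A, a • t = (y : M)) → (y : M) - c y • t = 0 := by
    rintro y ⟨a, ha⟩
    rw [hc y ⟨a, ha⟩, hwy _ a ha, sub_self]
  have hhs : ∀ (a : A) (y : P), ((a • y : P) : M) - c (a • y) • t = a • ((y : M) - c y • t) := by
    intro a y
    rw [map_smul, smul_eq_mul, mul_smul, smul_sub]
    rfl
  obtain ⟨z, hz0, hz⟩ := hsoc
  obtain ⟨az, haz⟩ := hz t ht0
  have hPZ : ∀ y : P, ∃ a : A, a • t = (y : M) := by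
    intro y
    by_contra hy
    have h1 : (y : M) - c y • t ≠ 0 := by
      intro h2
      exact hy ⟨c y, (sub_eq_zero.1 h2).symm⟩
    obtain ⟨a, ha⟩ := hz _ h1
    rw [← hhs] at ha
    have h3 : ∃ a' : A, a' • t = ((a • y : P) : M) := by
      refine ⟨az + c (a • y), ?_⟩
      rw [add_smul, haz, ← ha, sub_add_cancel]
    rw [hh0 (a • y) h3] at ha
    exact hz0 ha.symm
  intro y
  obtain ⟨a, ha⟩ := hPZ ⟨y - w y • t, hdec y⟩
  refine ⟨a + w y, ?_⟩
  rw [add_smul, ha]
  simp

end Pool.Agent.TGr
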