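import Pool.Agent.Lib_TGr.StepC0
import Pool.Agent.Lib_TGr.Cover

set_option autoImplicit false

/-! The product of the bottoms of the two radicals. -/

namespace Pool.Agent.TGr

open CategoryTheory

variable {k : Type} [Field k] {A : Type} [Ring A] [Algebra k A] [FiniteDimensional k A] {s m : ℕ}
  {gA : GA k A s m} {M : Type} [AddCommGroup M] [Module A M] [Module k M] [IsScalarTower k A M]
  [FiniteDimensional k M]

/-- The grading of a quotient by a graded submodule. -/
lemma exists_quotGM (g : GM gA M) (Z : Submodule A M) (hZ : ∀ i, ∀ x ∈ Z, g.pr i x ∈ Z) :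
    ∃ gQ : GM gA (M ⧸ Z), ∀ i x, gQ.pr i (Submodule.Quotient.mk x) =
      Submodule.Quotient.mk (g.pr i x) := by
  let e : (M ⧸ Z.restrictScalars k) ≃ₗ[k] M ⧸ Z := Submodule.Quotient.restrictScalarsEquiv k Z
  let pq : ℤ → (M ⧸ Z) →ₗ[k] (M ⧸ Z) := fun i =>
    e.toLinearMap ∘ₗ (Submodule.mapQ (Z.restrictScalars k) (Z.restrictScalars k) (g.pr i)
      (fun x hx => hZ i x hx)) ∘ₗ e.symm.toLinearMap
  have hpq : ∀ i x, pq i (Submodule.Quotient.mk x) = Submodule.Quotient.mk (g.pr i x) :=
    fun i x => rfl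
  refine ⟨{ pr := pq, same := ?_, diff := ?_, sep := ?_, neg := ?_, smul := ?_ }, hpq⟩
  · intro i x
    obtain ⟨x, rfl⟩ := Submodule.Quotient.mk_surjective Z x
    rw [hpq, hpq, g.same]
  · intro i j x hij
    obtain ⟨x, rfl⟩ := Submodule.Quotient.mk_surjective Z x
    rw [hpq, hpq, g.diff i j x hij, Submodule.Quotient.mk_zero]
  · intro x hx
    obtain ⟨x, rfl⟩ := Submodule.Quotient.mk_surjective Z x
    rw [Submodule.Quotient.mk_eq_zero, ← supp_total g.toGr x]
    refine Submodule.sum_mem _ fun i _ => ?_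
    have h := hx i
    rwa [hpq, Submodule.Quotient.mk_eq_zero] at h
  · intro i hi
    refine LinearMap.ext fun x => ?_
    obtain ⟨x, rfl⟩ := Submodule.Quotient.mk_surjective Z x
    rw [hpq, g.neg i hi]
    rfl
  · intro i j a x
    obtain ⟨x, rfl⟩ := Submodule.Quotient.mk_surjective Z x
    rw [← Submodule.Quotient.mk_smul, hpq, hpq, ← Submodule.Quotient.mk_smul, g.smul]

/-- Homogeneous elements `y i` of `M` which generate `M` together with `t`, and such that in the
degrees `j < s - q + m` every relation is a multiple of `t` only: apply `exists_cover` to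
`M ⧸ A • t` (which has no degrees below `s - q`, by `hG`) and lift the generators to homogeneous
elements. -/
lemma exists_cover_mod (g : GM gA M) (t : M) (ht : g.pr 0 t = t) (q : ℕ) (hq : q ≤ s)
    (hG : ∀ n : ℤ, n < s - q → ∀ y : M, g.pr n y = y → ∃ a : A, a • t = y) :
    ∃ (N : ℕ) (d : Fin N → ℕ) (y : Fin N → M), (∀ i, g.pr (d i) (y i) = y i) ∧
      (∀ z : M, ∃ (a : A) (x : Fin N → A), a • t + ∑ i, x i • y i = z) ∧
      (∀ (a : A) (x : Fin N → A), a • t + ∑ i, x i • y i = 0 → ∀ j : ℤ, j < (s : ℤ) - q + m →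
        (freeGM gA d).pr j x = 0) := by
  set Z : Submodule A M := Submodule.span A {t} with hZdef
  have hmem : ∀ z, z ∈ Z ↔ ∃ a : A, a • t = z := fun z => Submodule.mem_span_singleton
  obtain ⟨gQ, hgQ⟩ := exists_quotGM g Z (by
    intro i x hx
    obtain ⟨a, rfl⟩ := (hmem x).1 hx
    rw [pr_smul_homog g i 0 a t ht]
    exact (hmem _).2 ⟨_, rfl⟩)
  obtain ⟨N, d, xq, h1, h2, h3⟩ := exists_cover gQ (s - q) (by
    intro j hj
    refine LinearMap.ext fun x => ?_
    obtain ⟨x, rfl⟩ := Submodule.Quotient.mk_surjective Z x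
    rw [hgQ, LinearMap.zero_apply, Submodule.Quotient.mk_eq_zero]
    refine (hmem _).2 (hG j ?_ _ (g.same _ _))
    rw [Nat.cast_sub hq] at hj
    exact hj)
  have h4 : ∀ i, ∃ x0 : M, Submodule.Quotient.mk x0 = xq i := fun i =>
    Submodule.Quotient.mk_surjective Z (xq i)
  choose x0 hx0 using h4
  have h5 : ∀ i, (Submodule.Quotient.mk (g.pr (d i) (x0 i)) : M ⧸ Z) = xq i := by
    intro i
    rw [← hgQ, hx0, h1]
  have h6 : ∀ x : Fin N → A, (Submodule.Quotient.mk (∑ i, x i • g.pr (d i) (x0 i)) : M ⧸ Z)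
      = ∑ i, x i • xq i := by
    intro x
    have h7 : (Submodule.Quotient.mk (∑ i, x i • g.pr (d i) (x0 i)) : M ⧸ Z)
        = Z.mkQ (∑ i, x i • g.pr (d i) (x0 i)) := rfl
    rw [h7, map_sum]
    refine Finset.sum_congr rfl fun i _ => ?_
    rw [map_smul, Submodule.mkQ_apply, h5]
  refine ⟨N, d, fun i => g.pr (d i) (x0 i), fun i => g.same _ _, fun z => ?_, fun a x hax j hj => ?_⟩
  · obtain ⟨x, hx⟩ := h2 (Submodule.Quotient.mk z)
    rw [← h6] at hx
    have h8 := (Submodule.Quotient.eq Z).1 hx.symm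
    obtain ⟨a, ha⟩ := (hmem _).1 h8
    refine ⟨a, x, ?_⟩
    rw [ha, sub_add_cancel]
  · refine h3 x ?_ j ?_
    · rw [← h6, Submodule.Quotient.mk_eq_zero]
      refine (hmem _).2 ⟨-a, ?_⟩
      rw [neg_smul]
      exact neg_eq_of_add_eq_zero_right hax
    · rw [Nat.cast_sub hq]
      exact hj

variable (e : M ≃ₗ[k] Module.Dual k A) (he : ∀ (a : A) (m : M) (x : A), e (a • m) x = e m (x * a))

include he in
/-- Let `X` be the kernel of `f : (Fin (N + 1) → A) → M`, the linear combinations of `t` and the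
`y i` of `exists_cover_mod`, graded by `kerGM (freeGM gA (Fin.cons 0 d))`. By `Tach.ext_shift`
`Ext^1 (X, A) = 0`. For `j < c'` (so `j < s - q + m`) an element of degree `j` of `X` has only its
first coordinate, which is killed by `t`, so it is zero by `hN'`. Apply `stepC0` to `X`, `b = c'`
and the element `n = (x, 0, ..., 0)` of `X`. -/
theorem stepC [CategoryTheory.HasExt.{1} (ModuleCat.{0} A)] (g : GM gA M)
    (hg : ∀ (n : ℤ) (x : M) (a : A), e (g.pr n x) a = e x (gA.pr (s - n) a))
    (t : M) (ht : g.pr 0 t = t)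
    (hE : Subsingleton (CategoryTheory.Abelian.Ext.{1} (ModuleCat.of A M) (ModuleCat.of A A) 2))
    (p q c c' : ℕ) (hc : 1 ≤ c) (hpc : p + c < s + 2 * m) (hq : q ≤ s) (hqc : q + c' ≤ s + m)
    (hN : ∀ i : ℤ, p < i → ∀ x : A, gA.pr i x = x → x • t = 0 → x = 0)
    (hN' : ∀ i : ℤ, i < c' → ∀ x : A, gA.pr i x = x → x • t = 0 → x = 0)
    (hZ : ∀ n : ℤ, s - c < n → ∀ y : M, g.pr n y = y → ∃ a : A, a • t = y)
    (hG : ∀ n : ℤ, n < s - q → ∀ y : M, g.pr n y = y → ∃ a : A, a • t = y)
    (v : A) (hv : gA.pr c v = v) (hv0 : v ≠ 0) (hvr : ∀ a, e t (v * a) = 0)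
    (x : A) (hx : gA.pr c' x = x) (hx0 : x ≠ 0) (hxt : x • t = 0) (hvx : v * x = 0) :
    False := by
  obtain ⟨N, d, y, hy, hgen, hker⟩ := exists_cover_mod g t ht q hq hG
  let ty : Fin (N + 1) → M := Fin.cons t y
  let d' : Fin (N + 1) → ℕ := Fin.cons 0 d
  have hty : ∀ i, g.pr (d' i) (ty i) = ty i := by
    intro i
    refine Fin.cases ?_ (fun i => ?_) i
    · exact ht
    · exact hy i
  let f : (Fin (N + 1) → A) →ₗ[A] M := Fintype.linearCombination A ty
  have hfa : ∀ z : Fin (N + 1) → A, f z = z 0 • t + ∑ i : Fin N, z i.succ • y i := by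
    intro z
    change Fintype.linearCombination A ty z = _
    rw [Fintype.linearCombination_apply, Fin.sum_univ_succ]
    rfl
  have hfg : ∀ i z, f ((freeGM gA d').pr i z) = g.pr i (f z) := by
    intro i z
    change Fintype.linearCombination A ty _ = g.pr i (Fintype.linearCombination A ty z)
    rw [Fintype.linearCombination_apply, Fintype.linearCombination_apply,
      pr_lincomb g d' ty hty i z]
  have hfs : Function.Surjective f := by
    intro z
    obtain ⟨a, x', hax⟩ := hgen z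
    refine ⟨Fin.cons a x', ?_⟩
    rw [hfa]
    simpa using hax
  have hX : Subsingleton (CategoryTheory.Abelian.Ext.{1} (ModuleCat.of A (LinearMap.ker f))
      (ModuleCat.of A A) 1) :=
    Tach.ext_shift (LinearMap.ker f).subtype f (Submodule.subtype_injective _) hfs
      (LinearMap.exact_subtype_ker_map f) le_rfl hE
  have hfn : f (Fin.cons x (fun _ => 0)) = 0 := by
    rw [hfa]
    simpa using hxt
  refine stepC0 e he g hg t ht p c hc hpc hN hZ v hv hv0 hvr
    (kerGM (freeGM gA d') g f hfg) (c' : ℤ) ?_ hX ⟨Fin.cons x (fun _ => 0), hfn⟩ ?_ ?_ ?_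
  · intro j hj
    refine LinearMap.ext fun z => Subtype.ext ?_
    rw [kerGM_pr, LinearMap.zero_apply]
    have hz : f z = 0 := z.2
    have hz1 := hfa z
    rw [hz] at hz1
    have h1 := hker (z.1 0) (fun i => z.1 i.succ) hz1.symm j (by omega)
    have h2 : ∀ i : Fin N, (freeGM gA d').pr j z.1 i.succ = 0 := by
      intro i
      have h3 := congrFun h1 i
      rw [freeGM_pr] at h3
      rw [freeGM_pr]
      exact h3
    have h4 : f ((freeGM gA d').pr j z.1) = 0 := by
      rw [hfg, hz, map_zero]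
    rw [hfa] at h4
    simp only [h2, zero_smul, Finset.sum_const_zero, add_zero] at h4
    have h5 : (freeGM gA d').pr j z.1 0 = gA.pr j (z.1 0) := by
      rw [freeGM_pr]
      change gA.pr (j - ((0 : ℕ) : ℤ)) (z.1 0) = _
      rw [Nat.cast_zero, sub_zero]
    rw [h5] at h4
    have h6 := hN' j hj _ (gA.same _ _) h4
    funext i
    refine Fin.cases ?_ (fun i => ?_) i
    · rw [h5, h6]
      rfl
    · rw [h2]
      rfl
  · refine Subtype.ext ?_
    rw [kerGM_pr]
    funext i
    refine Fin.cases ?_ (fun i => ?_) i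
    · rw [freeGM_pr]
      change gA.pr ((c' : ℤ) - ((0 : ℕ) : ℤ)) x = x
      rw [Nat.cast_zero, sub_zero, hx]
    · rw [freeGM_pr]
      exact map_zero _
  · intro h
    have h1 := congrFun (congrArg Subtype.val h) 0
    exact hx0 h1
  · refine Subtype.ext ?_
    funext i
    refine Fin.cases ?_ (fun i => ?_) i
    · exact hvx
    · exact mul_zero v

end Pool.Agent.TGr
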