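import Pool.Agent.Lib_TGr.Series
import Pool.Agent.Lib_TGr.Num
import Pool.Agent.Lib_TGr.Dual
import Pool.Agent.Lib_TGr.StepA
import Pool.Agent.Lib_TGr.StepC
import Pool.Agent.Lib_TGr.Pal
import Pool.Agent.Lib_TGr.Pair

set_option autoImplicit false

/-! Assembly. -/

namespace Pool.Agent.TGr

open CategoryTheory

variable {k : Type} [Field k] {A : Type} [Ring A] [Algebra k A] [FiniteDimensional k A] {s m : ℕ}
  {M : Type} [AddCommGroup M] [Module A M] [Module k M] [IsScalarTower k A M]
  (e : M ≃ₗ[k] Module.Dual k A) (he : ∀ (a : A) (m : M) (x : A), e (a • m) x = e m (x * a))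

omit [FiniteDimensional k A] in
lemma rk_zero {X Y : Type} [AddCommGroup X] [Module k X] [AddCommGroup Y] [Module k Y] :
    rk (0 : X →ₗ[k] Y) = 0 := by
  unfold rk
  rw [LinearMap.range_zero, finrank_bot]

lemma eq_zero_of_rk {X Y : Type} [AddCommGroup X] [Module k X] [AddCommGroup Y] [Module k Y]
    [FiniteDimensional k X] (f : X →ₗ[k] Y) (h : rk f = 0) : f = 0 := by
  unfold rk at h
  rw [Submodule.finrank_eq_zero] at h
  exact LinearMap.range_eq_bot.1 h

/-- The range of the projection to the degree `0` is one-dimensional. -/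
lemma rk_pr_zero [Nontrivial A] (gA : GA k A s m) : rk (gA.pr 0) = 1 := by
  unfold rk
  have h : LinearMap.range (gA.pr 0) = Submodule.span k {(1 : A)} := by
    apply le_antisymm
    · rintro _ ⟨a, rfl⟩
      obtain ⟨c, hc⟩ := gA.zero a
      rw [hc, Algebra.algebraMap_eq_smul_one]
      exact Submodule.smul_mem _ _ (Submodule.mem_span_singleton_self _)
    · rw [Submodule.span_singleton_le_iff_mem]
      exact ⟨1, gA.one⟩
  rw [h]
  exact finrank_span_singleton one_ne_zero

include he in
/-- The numerical consequences of the vanishing of `Ext`. -/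
theorem numerics [CategoryTheory.HasExt.{1} (ModuleCat.{0} A)] [Nontrivial A] (gA : GA k A s m)
    (hs : gA.pr s ≠ 0) (n : ℕ) (hn : 3 * s < n * m)
    (hE : ∀ i : ℕ, 1 ≤ i → i ≤ n → Subsingleton
        (CategoryTheory.Abelian.Ext.{1} (ModuleCat.of A M) (ModuleCat.of A A) i)) :
    rk (gA.pr s) = 1 ∧ (∀ i : ℕ, 0 < i → i < m → i < s → gA.pr ((s - i : ℕ) : ℤ) = 0) ∧
      ((∀ i : ℕ, 6 * i + 3 ≤ s → rk (gA.pr i) = rk (gA.pr ((s - i : ℕ) : ℤ))) →
        ∀ i : ℕ, i ≤ s → rk (gA.pr i) = rk (gA.pr ((s - i : ℕ) : ℤ))) := by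
  have := fin_of_dual e
  have h1 := dl_dvd n M (dualGM e he gA) 0 (fun j hj => (dualGM e he gA).neg j (by
    push_cast at hj; exact hj)) hE
  rw [zero_add] at h1
  set u : ℕ → ℕ := fun r => rk (comp (dualGM e he gA) (r : ℤ)) with hu
  set h : ℕ → ℕ := fun r => rk (gA.pr (r : ℤ)) with hh
  have e0 : h 0 = 1 := rk_pr_zero gA
  have es : h s ≠ 0 := fun h0 => hs (eq_zero_of_rk _ h0)
  have etop : ∀ i, s < i → h i = 0 := by
    intro i hi
    change rk (gA.pr (i : ℤ)) = 0
    rw [gA.top i (by exact_mod_cast hi)]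
    exact rk_zero
  have egap : ∀ i, 0 < i → i < m → h i = 0 := by
    intro i hi him
    change rk (gA.pr (i : ℤ)) = 0
    rw [gA.gap i (by exact_mod_cast hi) (by exact_mod_cast him)]
    exact rk_zero
  have eu : ∀ r, 2 * s < r → u r = 0 := by
    intro r hr
    change rk (comp (dualGM e he gA) (r : ℤ)) = 0
    rw [comp_high (dualGM e he gA) s (fun j hj => dualGM_top e he gA j hj) r (by omega)]
    exact rk_zero
  have eid : ∀ n, n ≤ 3 * s → ∑ p ∈ Finset.HasAntidiagonal.antidiagonal n, u p.1 * h p.2 =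
      ∑ p ∈ Finset.HasAntidiagonal.antidiagonal n, rv s h p.1 * rv s h p.2 := by
    intro N hN
    have h4 := (PowerSeries.X_pow_dvd_iff.1 h1) N (by omega)
    unfold dl at h4
    rw [hs_dual, map_sub, sub_eq_zero, PowerSeries.coeff_mul, PowerSeries.coeff_mul] at h4
    have h5 : ∀ a : ℕ, (PowerSeries.coeff a) (hsr gA) = ((rv s h a : ℕ) : ℤ) := by
      intro a
      rw [hsr, PowerSeries.coeff_mk]
      unfold rv
      split_ifs with ha
      · change ((rk (gA.pr ((s : ℤ) - a)) : ℕ) : ℤ) = ((rk (gA.pr ((s - a : ℕ) : ℤ)) : ℕ) : ℤ)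
        rw [Nat.cast_sub ha]
      · rw [gA.neg _ (by omega), rk_zero]
    have h6 : ∀ a : ℕ, (PowerSeries.coeff a) (hsd (dualGM e he gA)) = ((u a : ℕ) : ℤ) := by
      intro a
      rw [hsd, PowerSeries.coeff_mk]
    have h7 : ∀ a : ℕ, (PowerSeries.coeff a) (Pool.Agent.TGr.hs gA.toGr) = ((h a : ℕ) : ℤ) := by
      intro a
      rw [Pool.Agent.TGr.hs, PowerSeries.coeff_mk]
    simp only [h5, h6, h7] at h4
    exact_mod_cast h4
  have h3 := num s m u h e0 es etop egap eu eid
  exact ⟨h3.1, fun i hi him his => eq_zero_of_rk _ (h3.2 i hi him his),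
    fun hsm => pal s u h e0 es etop eu eid hsm⟩

section functional

variable (gA : GA k A s m)

/-- The functional: if the top degree is one-dimensional, there are `w` in the top degree and a
functional `f` with `f w = 1` which factors through the projection. -/
lemma exists_top (h : rk (gA.pr s) = 1) :
    ∃ (w : A) (f : Module.Dual k A), gA.pr s w = w ∧ f w = 1 ∧ (∀ a, f (gA.pr s a) = f a) ∧
      ∀ a, gA.pr s a = f a • w := by
  obtain ⟨⟨w, hw⟩, hw0, hsp⟩ := finrank_eq_one_iff'.1 h
  have hw0' : w ≠ 0 := fun h => hw0 (Subtype.ext h)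
  have hpw : gA.pr s w = w := by
    obtain ⟨a, rfl⟩ := hw
    exact gA.same _ _
  obtain ⟨f, hf⟩ : ∃ f : Module.Dual k A, f w = 1 := by
    have h1 : ¬ ∀ φ : Module.Dual k A, φ w = 0 := by
      rw [Module.forall_dual_apply_eq_zero_iff k w]
      exact hw0'
    push Not at h1
    obtain ⟨φ, hφ⟩ := h1
    exact ⟨(φ w)⁻¹ • φ, by rw [LinearMap.smul_apply, smul_eq_mul, inv_mul_cancel₀ hφ]⟩
  refine ⟨w, f ∘ₗ gA.pr s, hpw, ?_, fun a => ?_, fun a => ?_⟩
  · rw [LinearMap.comp_apply, hpw, hf]
  · rw [LinearMap.comp_apply, LinearMap.comp_apply, gA.same]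
  · obtain ⟨c, hc⟩ := hsp ⟨gA.pr s a, ⟨a, rfl⟩⟩
    have hc' : c • w = gA.pr s a := congrArg Subtype.val hc
    rw [LinearMap.comp_apply, ← hc', map_smul, hf, smul_eq_mul, mul_one]

variable {gA}

/-- Left annihilation in the top degree. -/
lemma left_zero {w : A} {f : Module.Dual k A} (hf : ∀ a, gA.pr s a = f a • w) {i : ℤ} {x : A}
    (hx : gA.pr i x = x) (h : ∀ y, f (y * x) = 0) (y : A) (hy : gA.pr (s - i) y = y) :
    y * x = 0 := by
  have h1 := gA.mul (s - i) i y x
  rw [sub_add_cancel, hy, hx, hf, h, zero_smul] at h1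
  exact h1.symm

/-- Right annihilation in the top degree. -/
lemma right_zero {w : A} {f : Module.Dual k A} (hf : ∀ a, gA.pr s a = f a • w) {i : ℤ} {x : A}
    (hx : gA.pr i x = x) (h : ∀ y, f (x * y) = 0) (y : A) (hy : gA.pr (s - i) y = y) :
    x * y = 0 := by
  have h1 := gA.mul i (s - i) x y
  rw [add_sub_cancel, hy, hx, hf, h, zero_smul] at h1
  exact h1.symm

/-- From natural degrees at most `s - m` to all degrees. -/
lemma all_degrees (hgap : ∀ i : ℕ, 0 < i → i < m → i < s → gA.pr ((s - i : ℕ) : ℤ) = 0)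
    (P : A → Prop) (hP : ∀ x, gA.pr s x = x → P x → x = 0) (p : ℕ)
    (h : ∀ i : ℕ, p < i → i + m ≤ s → ∀ x, gA.pr i x = x → P x → x = 0) :
    ∀ i : ℤ, p < i → ∀ x, gA.pr i x = x → P x → x = 0 := by
  intro i hi x hx hPx
  rcases lt_trichotomy (s : ℤ) i with h1 | h1 | h1
  · rw [← hx, gA.top i h1]; rfl
  · subst h1
    exact hP x hx hPx
  · by_cases h2 : i + m ≤ s
    · obtain ⟨j, rfl⟩ : ∃ j : ℕ, i = j := ⟨i.toNat, by omega⟩
      exact h j (by exact_mod_cast hi) (by exact_mod_cast h2) x hx hPx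
    · obtain ⟨j, rfl⟩ : ∃ j : ℕ, i = ((s - j : ℕ) : ℤ) := ⟨s - i.toNat, by omega⟩
      rw [← hx, hgap j (by omega) (by omega) (by omega)]
      rfl

end functional

variable (s) in
/-- no nonzero element of degree `i` is annihilated on the right by the degree `s - i` -/
def Rr (gA : GA k A s m) (i : ℤ) : Prop :=
  ∀ x, gA.pr i x = x → (∀ y, gA.pr (s - i) y = y → x * y = 0) → x = 0

variable (s) in
/-- no nonzero element of degree `i` is annihilated on the left by the degree `s - i` -/
def Rl (gA : GA k A s m) (i : ℤ) : Prop :=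
  ∀ x, gA.pr i x = x → (∀ y, gA.pr (s - i) y = y → y * x = 0) → x = 0

section radicals

variable {gA : GA k A s m} {w : A} {f : Module.Dual k A} (hf : ∀ a, gA.pr s a = f a • w)

include hf in
omit [FiniteDimensional k A] in
lemma mul_zero_iff (i : ℤ) (x y : A) (hx : gA.pr i x = x) (hy : gA.pr (s - i) y = y) :
    f (x * y) = 0 → x * y = 0 := by
  intro h
  have h1 := gA.mul i (s - i) x y
  rw [add_sub_cancel, hy, hx, hf, h, zero_smul] at h1
  exact h1.symm

include hf in
lemma Rr_Rl (i : ℤ) (hr : rk (gA.pr i) = rk (gA.pr (s - i))) (h : Rr s gA i) :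
    Rl s gA (s - i) := by
  intro y hy hxy
  rw [sub_sub_cancel] at hxy
  refine left_of_right (f := f) i (s - i) hr (fun x hx hh => h x hx fun y hy => ?_) y hy
    (fun x hx => by rw [hxy x hx, map_zero])
  exact mul_zero_iff hf i x y hx hy (hh y hy)

include hf in
lemma Rl_Rr (i : ℤ) (hr : rk (gA.pr i) = rk (gA.pr (s - i))) (h : Rl s gA i) :
    Rr s gA (s - i) := by
  intro y hy hxy
  rw [sub_sub_cancel] at hxy
  refine right_of_left (f := f) i (s - i) hr (fun x hx hh => h x hx fun y hy => ?_) y hy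
    (fun x hx => by rw [hxy x hx, map_zero])
  exact mul_zero_iff hf (s - i) y x hy (by rw [sub_sub_cancel]; exact hx) (hh y hy)

include hf in
lemma rk_eq_of_perfect (i : ℤ) (h : Rr s gA i) (h' : Rl s gA (s - i)) :
    rk (gA.pr i) = rk (gA.pr (s - i)) := by
  apply le_antisymm
  · refine rk_le_right (f := f) i (s - i) fun x hx hh => h x hx fun y hy => ?_
    exact mul_zero_iff hf i x y hx hy (hh y hy)
  · refine rk_le_left (f := f) (s - i) i fun x hx hh => h' x hx fun y hy => ?_
    rw [sub_sub_cancel] at hy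
    exact mul_zero_iff hf i y x hy hx (hh y hy)

end radicals

include he in
/-- The window theorem when the top degree is one-dimensional: only `Ext^1` is needed. -/
theorem core_window [CategoryTheory.HasExt.{1} (ModuleCat.{0} A)] [Nontrivial A] (gA : GA k A s m)
    (hr : rk (gA.pr s) = 1)
    (hgap : ∀ i : ℕ, 0 < i → i < m → i < s → gA.pr ((s - i : ℕ) : ℤ) = 0)
    (hE1 : Subsingleton
        (CategoryTheory.Abelian.Ext.{1} (ModuleCat.of A M) (ModuleCat.of A A) 1))
    (p q : ℕ) (hpq : p + q < s + 2 * m) (hp : ∀ i : ℕ, p < i → i + m ≤ s → Rl s gA i)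
    (hq : ∀ i : ℕ, q < i → i + m ≤ s → Rr s gA i) :
    Module.Injective A A := by
  have := fin_of_dual e
  obtain ⟨w, f, hw, hfw, hfp, hf⟩ := exists_top gA hr
  set t : M := e.symm f with ht
  have het : e t = f := e.apply_symm_apply f
  have hg : ∀ (n : ℤ) (x : M) (a : A), e ((dualGM e he gA).pr n x) a = e x (gA.pr (s - n) a) :=
    dualGM_pr e he gA
  have ht0 : (dualGM e he gA).pr 0 t = t := by
    apply e.injective
    refine LinearMap.ext fun a => ?_
    rw [dualGM_pr, het, sub_zero, hfp]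
  have htne : t ≠ 0 := by
    intro h
    rw [h, map_zero] at het
    rw [← het] at hfw
    exact zero_ne_one hfw
  have hsoc := exists_socle e he gA
  -- annihilation
  have hl : ∀ (i : ℤ) (x : A), gA.pr i x = x → x • t = 0 → ∀ y, gA.pr (s - i) y = y → y * x = 0 := by
    intro i x hx hxt
    refine left_zero hf hx fun y => ?_
    rw [← het, ← he x t y, hxt, map_zero]
    rfl
  have hl' : ∀ (i : ℤ) (x : A), gA.pr i x = x → (∀ y, gA.pr (s - i) y = y → y * x = 0) →
      x • t = 0 := by
    intro i x hx h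
    apply e.injective
    refine LinearMap.ext fun y => ?_
    rw [he, het, map_zero, LinearMap.zero_apply, ← hfp, mul_homog (gA := gA) s i y x hx,
      h _ (gA.same _ _), map_zero]
  have hrr : ∀ (i : ℤ) (x : A), gA.pr i x = x → (∀ a, e t (x * a) = 0) →
      ∀ y, gA.pr (s - i) y = y → x * y = 0 := by
    intro i x hx hxt
    refine right_zero hf hx fun y => ?_
    rw [← het]
    exact hxt y
  have hrr' : ∀ (i : ℤ) (x : A), gA.pr i x = x → (∀ y, gA.pr (s - i) y = y → x * y = 0) →
      ∀ a, e t (x * a) = 0 := by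
    intro i x hx h a
    have h1 := gA.mul i (s - i) x a
    rw [add_sub_cancel, hx, h _ (gA.same _ _)] at h1
    rw [het, ← hfp, h1, map_zero]
  have hPl : ∀ x, gA.pr s x = x → x • t = 0 → x = 0 := by
    intro x hx hxt
    have h1 := hl s x hx hxt 1 (by rw [sub_self]; exact gA.one)
    rwa [one_mul] at h1
  have hPr : ∀ x, gA.pr s x = x → (∀ a, e t (x * a) = 0) → x = 0 := by
    intro x hx hxt
    have h1 := hrr s x hx hxt 1 (by rw [sub_self]; exact gA.one)
    rwa [mul_one] at h1
  -- from annihilation to membership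
  have hmem : ∀ n : ℤ, (∀ x, gA.pr (s - n) x = x → (∀ a, e t (x * a) = 0) → x = 0) →
      ∀ y : M, (dualGM e he gA).pr n y = y → ∃ a : A, a • t = y := by
    intro n hn y hy
    refine mem_of_ann e he t y fun x hx => ?_
    rw [← hy, dualGM_pr]
    have h1 : gA.pr (s - n) x = 0 := by
      refine hn _ (gA.same _ _) fun a => ?_
      have h3 : gA.pr s (gA.pr (s - n) x * a) = gA.pr (s - n) x * gA.pr n a := by
        have h4 := gA.mul (s - n) n x a
        rwa [sub_add_cancel] at h4
      have h5 : gA.pr s (x * gA.pr n a) = gA.pr (s - n) x * gA.pr n a :=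
        mul_homog (gA := gA) s n x (gA.pr n a) (gA.same n a)
      rw [het, ← hfp, h3, ← h5, hfp, ← het]
      exact hx _
    rw [h1, map_zero]
  have hmemR : ∀ n : ℤ, Rr s gA (s - n) →
      ∀ y : M, (dualGM e he gA).pr n y = y → ∃ a : A, a • t = y := fun n hn =>
    hmem n fun x hx hxa => hn x hx (hrr _ x hx hxa)
  -- if the annihilator is zero
  have hfin : (∀ x : A, x • t = 0 → x = 0) → Module.Injective A A := by
    intro h
    refine inj_of_generator e he t ?_
    let ρ : A →ₗ[k] M := (LinearMap.toSpanSingleton A M t).restrictScalars k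
    have hinj : Function.Injective ρ := by
      rw [← LinearMap.ker_eq_bot, LinearMap.ker_eq_bot']
      exact h
    have hd : Module.finrank k A = Module.finrank k M := by
      rw [e.finrank_eq, Subspace.dual_finrank_eq]
    exact (LinearMap.injective_iff_surjective_of_finrank_eq_finrank hd).1 hinj
  by_cases hx : ∃ x : A, x ≠ 0 ∧ x • t = 0
  · refine inj_of_generator e he t (stepA (dualGM e he gA) t ht0 htne hE1 hsoc p q hpq ?_ ?_ hx)
    · exact all_degrees hgap (fun x => x • t = 0) hPl p fun i hi him x hx hxt =>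
        hp i hi him x hx (hl i x hx hxt)
    · intro n hn
      refine hmem n ?_
      exact all_degrees hgap (fun x => ∀ a, e t (x * a) = 0) hPr q (fun i hi him x hx hxt =>
        hq i hi him x hx (hrr i x hx hxt)) (s - n) (by omega)
  · push Not at hx
    exact hfin fun x hxt => by
      by_contra h
      exact hx x h hxt

include he in
/-- The theorem for gradings given by projections. -/
theorem core [CategoryTheory.HasExt.{1} (ModuleCat.{0} A)] [Nontrivial A] (gA : GA k A s m)
    (hm : 1 ≤ m) (hs : gA.pr s ≠ 0) (n : ℕ) (hn : 3 * s < n * m)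
    (hE : ∀ i : ℕ, 1 ≤ i → i ≤ n → Subsingleton
        (CategoryTheory.Abelian.Ext.{1} (ModuleCat.of A M) (ModuleCat.of A A) i))
    (H : (∃ p q : ℕ, p + q < s + 2 * m ∧ (∀ i : ℕ, p < i → i + m ≤ s → Rl s gA i) ∧
        (∀ i : ℕ, q < i → i + m ≤ s → Rr s gA i)) ∨
      (∃ c d : ℕ, 3 * d < s + 3 * c ∧
        ∀ i : ℕ, i ≤ s → i < c ∨ d < i → Rr s gA i ∧ Rl s gA (s - i)) ∨
      ((∀ i : ℕ, m ≤ i → 6 * i + 3 ≤ s → rk (gA.pr i) = rk (gA.pr ((s : ℤ) - i))) ∧
        ∀ i : ℕ, i ≤ s → ∀ x, gA.pr i x = x →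
          ((∀ y, gA.pr ((s : ℤ) - i) y = y → y * x = 0) ↔
            ∀ y, gA.pr ((s : ℤ) - i) y = y → x * y = 0))) :
    Module.Injective A A := by
  have := fin_of_dual e
  obtain ⟨hr, hgap, hpal⟩ := numerics e he gA hs n hn hE
  have hn1 : 1 ≤ n := by
    rcases n with _ | n
    · omega
    · omega
  have hE1 := hE 1 le_rfl hn1
  rcases H with ⟨p, q, hpq, hp, hq⟩ | H
  · exact core_window e he gA hr hgap hE1 p q hpq hp hq
  obtain ⟨w, f, hw, hfw, hfp, hf⟩ := exists_top gA hr
  set t : M := e.symm f with ht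
  have het : e t = f := e.apply_symm_apply f
  have hg : ∀ (n : ℤ) (x : M) (a : A), e ((dualGM e he gA).pr n x) a = e x (gA.pr (s - n) a) :=
    dualGM_pr e he gA
  have ht0 : (dualGM e he gA).pr 0 t = t := by
    apply e.injective
    refine LinearMap.ext fun a => ?_
    rw [dualGM_pr, het, sub_zero, hfp]
  have htne : t ≠ 0 := by
    intro h
    rw [h, map_zero] at het
    rw [← het] at hfw
    exact zero_ne_one hfw
  have hsoc := exists_socle e he gA
  -- annihilation
  have hl : ∀ (i : ℤ) (x : A), gA.pr i x = x → x • t = 0 → ∀ y, gA.pr (s - i) y = y → y * x = 0 := by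
    intro i x hx hxt
    refine left_zero hf hx fun y => ?_
    rw [← het, ← he x t y, hxt, map_zero]
    rfl
  have hl' : ∀ (i : ℤ) (x : A), gA.pr i x = x → (∀ y, gA.pr (s - i) y = y → y * x = 0) →
      x • t = 0 := by
    intro i x hx h
    apply e.injective
    refine LinearMap.ext fun y => ?_
    rw [he, het, map_zero, LinearMap.zero_apply, ← hfp, mul_homog (gA := gA) s i y x hx,
      h _ (gA.same _ _), map_zero]
  have hrr : ∀ (i : ℤ) (x : A), gA.pr i x = x → (∀ a, e t (x * a) = 0) →
      ∀ y, gA.pr (s - i) y = y → x * y = 0 := by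
    intro i x hx hxt
    refine right_zero hf hx fun y => ?_
    rw [← het]
    exact hxt y
  have hrr' : ∀ (i : ℤ) (x : A), gA.pr i x = x → (∀ y, gA.pr (s - i) y = y → x * y = 0) →
      ∀ a, e t (x * a) = 0 := by
    intro i x hx h a
    have h1 := gA.mul i (s - i) x a
    rw [add_sub_cancel, hx, h _ (gA.same _ _)] at h1
    rw [het, ← hfp, h1, map_zero]
  have hPl : ∀ x, gA.pr s x = x → x • t = 0 → x = 0 := by
    intro x hx hxt
    have h1 := hl s x hx hxt 1 (by rw [sub_self]; exact gA.one)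
    rwa [one_mul] at h1
  have hPr : ∀ x, gA.pr s x = x → (∀ a, e t (x * a) = 0) → x = 0 := by
    intro x hx hxt
    have h1 := hrr s x hx hxt 1 (by rw [sub_self]; exact gA.one)
    rwa [mul_one] at h1
  -- from annihilation to membership
  have hmem : ∀ n : ℤ, (∀ x, gA.pr (s - n) x = x → (∀ a, e t (x * a) = 0) → x = 0) →
      ∀ y : M, (dualGM e he gA).pr n y = y → ∃ a : A, a • t = y := by
    intro n hn y hy
    refine mem_of_ann e he t y fun x hx => ?_
    rw [← hy, dualGM_pr]
    have h1 : gA.pr (s - n) x = 0 := by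
      refine hn _ (gA.same _ _) fun a => ?_
      have h3 : gA.pr s (gA.pr (s - n) x * a) = gA.pr (s - n) x * gA.pr n a := by
        have h4 := gA.mul (s - n) n x a
        rwa [sub_add_cancel] at h4
      have h5 : gA.pr s (x * gA.pr n a) = gA.pr (s - n) x * gA.pr n a :=
        mul_homog (gA := gA) s n x (gA.pr n a) (gA.same n a)
      rw [het, ← hfp, h3, ← h5, hfp, ← het]
      exact hx _
    rw [h1, map_zero]
  have hmemR : ∀ n : ℤ, Rr s gA (s - n) →
      ∀ y : M, (dualGM e he gA).pr n y = y → ∃ a : A, a • t = y := fun n hn =>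
    hmem n fun x hx hxa => hn x hx (hrr _ x hx hxa)
  -- if the annihilator is zero
  have hfin : (∀ x : A, x • t = 0 → x = 0) → Module.Injective A A := by
    intro h
    refine inj_of_generator e he t ?_
    let ρ : A →ₗ[k] M := (LinearMap.toSpanSingleton A M t).restrictScalars k
    have hinj : Function.Injective ρ := by
      rw [← LinearMap.ker_eq_bot, LinearMap.ker_eq_bot']
      exact h
    have hd : Module.finrank k A = Module.finrank k M := by
      rw [e.finrank_eq, Subspace.dual_finrank_eq]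
    exact (LinearMap.injective_iff_surjective_of_finrank_eq_finrank hd).1 hinj
  -- symmetry of the Hilbert function
  have hsym : ∀ i : ℤ, rk (gA.pr i) = rk (gA.pr (s - i)) := by
    have h1 : ∀ i : ℕ, i ≤ s → rk (gA.pr i) = rk (gA.pr ((s - i : ℕ) : ℤ)) := by
      refine hpal fun i hi => ?_
      rcases H with ⟨c, d, hcd, hw⟩ | ⟨hd, -⟩
      · by_cases h2 : i < c ∨ d < i
        · have h3 := hw i (by omega) h2
          rw [rk_eq_of_perfect hf i h3.1 h3.2, Nat.cast_sub (by omega)]
        · have h3 := hw (s - i) (by omega) (by omega)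
          have h4 := rk_eq_of_perfect hf ((s - i : ℕ) : ℤ) h3.1 h3.2
          rw [h4]
          congr 2
          omega
      · rcases Nat.eq_zero_or_pos i with h2 | h2
        · subst h2
          rw [Nat.cast_zero, rk_pr_zero, Nat.sub_zero, hr]
        · by_cases h3 : i < m
          · rw [gA.gap i (by exact_mod_cast h2) (by exact_mod_cast h3), hgap i h2 h3 (by omega)]
          · rw [hd i (by omega) hi, Nat.cast_sub (by omega)]
    intro i
    by_cases h2 : i < 0
    · rw [gA.neg i h2, gA.top _ (by omega)]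
    · by_cases h3 : (s : ℤ) < i
      · rw [gA.top i h3, gA.neg _ (by omega)]
      · obtain ⟨j, rfl⟩ : ∃ j : ℕ, i = j := ⟨i.toNat, by omega⟩
        rw [h1 j (by omega), Nat.cast_sub (by omega)]
  have hRl : ∀ i : ℤ, Rr s gA (s - i) → Rl s gA i := by
    intro i h
    have h1 := Rr_Rl hf (s - i) (hsym (s - i)) h
    rwa [sub_sub_cancel] at h1
  have hRr : ∀ i : ℤ, Rl s gA (s - i) → Rr s gA i := by
    intro i h
    have h1 := Rl_Rr hf (s - i) (hsym (s - i)) h
    rwa [sub_sub_cancel] at h1
  -- degrees outside `0 .. s` and the degrees `0`, `s`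
  have hneg : ∀ i : ℤ, i ≤ 0 → Rr s gA i := by
    intro i hi x hx h
    rcases lt_or_eq_of_le hi with h1 | h1
    · rw [← hx, gA.neg i h1]; rfl
    · subst h1
      have h2 := h w (by rw [sub_zero]; exact hw)
      obtain ⟨c, hc⟩ := gA.zero x
      rw [hx] at hc
      rw [hc] at h2 ⊢
      rw [← Algebra.smul_def] at h2
      rcases smul_eq_zero.1 h2 with h3 | h3
      · rw [h3, map_zero]
      · rw [h3, map_zero] at hfw
        exact absurd hfw zero_ne_one
  have htop : ∀ i : ℤ, (s : ℤ) ≤ i → Rr s gA i := by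
    intro i hi x hx h
    rcases lt_or_eq_of_le hi with h1 | h1
    · rw [← hx, gA.top i h1]; rfl
    · subst h1
      have h2 := h 1 (by rw [sub_self]; exact gA.one)
      rwa [mul_one] at h2
  by_cases hall : ∀ i : ℕ, Rr s gA i
  · -- the radical is zero
    refine inj_of_generator e he t fun y => ?_
    have h1 : ∀ n : ℤ, ∃ a : A, a • t = (dualGM e he gA).pr n y := by
      intro n
      refine hmemR n ?_ _ ((dualGM e he gA).same n y)
      by_cases h2 : (s : ℤ) - n ≤ 0
      · exact hneg _ h2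
      · obtain ⟨j, hj⟩ : ∃ j : ℕ, (s : ℤ) - n = j := ⟨((s : ℤ) - n).toNat, by omega⟩
        rw [hj]
        exact hall j
    choose a ha using h1
    refine ⟨∑ n ∈ supp (dualGM e he gA).toGr, a n, ?_⟩
    rw [Finset.sum_smul, ← supp_total (dualGM e he gA).toGr y]
    exact Finset.sum_congr rfl fun n _ => ha n
  -- smallest and largest degree of the radical
  push Not at hall
  classical
  obtain ⟨α, hα, hαmin⟩ : ∃ α : ℕ, ¬ Rr s gA α ∧ ∀ i : ℤ, i < α → Rr s gA i := by
    refine ⟨Nat.find hall, Nat.find_spec hall, fun i hi => ?_⟩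
    by_cases h2 : i ≤ 0
    · exact hneg i h2
    · obtain ⟨j, rfl⟩ : ∃ j : ℕ, i = j := ⟨i.toNat, by omega⟩
      by_contra h3
      exact Nat.find_min hall (by exact_mod_cast hi) h3
  obtain ⟨β, hβ, hβmax⟩ : ∃ β : ℕ, ¬ Rr s gA β ∧ ∀ i : ℤ, (β : ℤ) < i → Rr s gA i := by
    have hex : ∃ j : ℕ, ¬ Rr s gA ((s : ℤ) - j) := by
      refine ⟨s - α, ?_⟩
      have h2 : α ≤ s := by
        by_contra h3
        exact hα (htop α (by omega))
      rwa [Nat.cast_sub h2, sub_sub_cancel]
    have h1 := Nat.find_spec hex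
    have h2 := fun j (hj : j < Nat.find hex) => Nat.find_min hex hj
    generalize Nat.find hex = j at h1 h2
    have h3 : j ≤ s := by
      by_contra h3
      exact h1 (hneg _ (by omega))
    refine ⟨s - j, by rwa [Nat.cast_sub h3], fun i hi => ?_⟩
    by_cases h4 : (s : ℤ) ≤ i
    · exact htop i h4
    · obtain ⟨l, rfl⟩ : ∃ l : ℕ, i = (s : ℤ) - l := ⟨((s : ℤ) - i).toNat, by omega⟩
      by_contra h5
      exact h2 l (by omega) h5
  have hα0 : 0 < α := by
    by_contra h
    exact hα (hneg α (by omega))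
  have hαs : α < s := by
    by_contra h
    exact hα (htop α (by omega))
  have hβs : β < s := by
    by_contra h
    exact hβ (htop β (by omega))
  have hαβ : α ≤ β := by
    by_contra h
    exact hα (hβmax α (by omega))
  -- an element of the bottom of the right radical
  obtain ⟨v, hv, hvr0, hv0⟩ : ∃ v, gA.pr α v = v ∧ (∀ y, gA.pr ((s : ℤ) - α) y = y → v * y = 0) ∧
      v ≠ 0 := by
    unfold Rr at hα
    push Not at hα
    exact hα
  have hvr := hrr' α v hv hvr0
  have hN : ∀ i : ℤ, ((s - α : ℕ) : ℤ) < i → ∀ x : A, gA.pr i x = x → x • t = 0 → x = 0 := by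
    intro i hi x hx hxt
    exact hRl i (hαmin _ (by omega)) x hx (hl i x hx hxt)
  have hZ : ∀ n : ℤ, s - α < n → ∀ y : M, (dualGM e he gA).pr n y = y → ∃ a : A, a • t = y :=
    fun n hn => hmemR n (hαmin _ (by omega))
  exfalso
  rcases H with ⟨c, d, hcd, hw⟩ | ⟨-, hiff⟩
  · -- window
    have hcα : c ≤ α := by
      by_contra h
      exact hα (hw α hαs.le (Or.inl (by omega))).1
    have hβd : β ≤ d := by
      by_contra h
      exact hβ (hw β hβs.le (Or.inr (by omega))).1
    have hml : m ≤ α := by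
      by_contra h
      refine hv0 ?_
      rw [← hv, gA.gap α (by exact_mod_cast hα0) (by exact_mod_cast (not_le.1 h))]
      rfl
    have hn2 : 2 ≤ n := by
      by_contra h
      have : n * m ≤ 1 * m := Nat.mul_le_mul_right m (by omega)
      omega
    have hRlβ : ¬ Rl s gA ((s - β : ℕ) : ℤ) := by
      intro h
      rw [Nat.cast_sub hβs.le] at h
      exact hβ (hRr β h)
    obtain ⟨x, hx, hxl, hx0⟩ : ∃ x, gA.pr ((s - β : ℕ) : ℤ) x = x ∧
        (∀ y, gA.pr ((s : ℤ) - ((s - β : ℕ) : ℤ)) y = y → y * x = 0) ∧ x ≠ 0 := by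
      unfold Rl at hRlβ
      push Not at hRlβ
      exact hRlβ
    have hxt := hl' _ x hx hxl
    have hvxh : gA.pr ((α : ℤ) + ((s - β : ℕ) : ℤ)) (v * x) = v * x := by
      have h1 := gA.mul α ((s - β : ℕ) : ℤ) v x
      rwa [hv, hx] at h1
    refine stepC e he (dualGM e he gA) hg t ht0 (hE 2 (by omega) hn2) (s - α) β α (s - β)
      (by omega) (by omega) hβs.le (by omega) hN ?_ hZ ?_ v hv hv0 hvr x hx hx0 hxt ?_
    · intro i hi x hx hxt
      exact hRl i (hβmax _ (by omega)) x hx (hl i x hx hxt)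
    · intro n hn
      exact hmemR n (hβmax _ (by omega))
    · by_contra hvx
      have h1 : ¬ Rr s gA ((α : ℤ) + ((s - β : ℕ) : ℤ)) := by
        intro h
        refine hvx (h _ hvxh (hrr _ _ hvxh fun a => ?_))
        rw [mul_assoc]
        exact hvr _
      have h2 : ¬ Rl s gA ((α : ℤ) + ((s - β : ℕ) : ℤ)) := by
        intro h
        refine hvx (h _ hvxh (hl _ _ hvxh ?_))
        rw [mul_smul, hxt, smul_zero]
      have h3 : (α : ℤ) + ((s - β : ℕ) : ℤ) ≤ β := by
        by_contra h
        exact h1 (hβmax _ (by omega))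
      have h4 : (α : ℤ) ≤ s - ((α : ℤ) + ((s - β : ℕ) : ℤ)) := by
        by_contra h
        exact h2 (hRl _ (hαmin _ (by omega)))
      omega
  · -- the radicals agree
    have hvt : v • t = 0 := hl' α v hv ((hiff α hαs.le v hv).2 hvr0)
    exact stepC0 e he (dualGM e he gA) hg t ht0 (s - α) α (by omega) (by omega) hN hZ v hv hv0 hvr
      (dualGM e he gA) 0 (fun j hj => (dualGM e he gA).neg j hj) hE1 t ht0 htne hvt

end Pool.Agent.TGr
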