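import Pool.Agent.Lib_TGr.Main

set_option autoImplicit false

/-! From Mathlib's graded algebras to gradings by projections. -/

namespace Pool.Agent.TGr

open DirectSum

variable {k : Type} [Field k] {A : Type} [Ring A] [Algebra k A]

section defs

variable (𝒜 : ℕ → Submodule k A) [GradedAlgebra 𝒜]

/-- the projection to the degree `i`, zero for negative `i` -/
noncomputable def prOf (i : ℤ) : A →ₗ[k] A :=
  if 0 ≤ i then GradedAlgebra.proj 𝒜 i.toNat else 0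

lemma prOf_nat (n : ℕ) (a : A) : prOf 𝒜 (n : ℤ) a = (decompose 𝒜 a n : A) := by
  unfold prOf
  rw [if_pos (Int.natCast_nonneg n), Int.toNat_natCast, GradedAlgebra.proj_apply]

lemma prOf_neg (i : ℤ) (hi : i < 0) : prOf 𝒜 i = 0 := by
  unfold prOf
  rw [if_neg (by omega)]

lemma prOf_of_mem {n : ℕ} {a : A} (ha : a ∈ 𝒜 n) : prOf 𝒜 (n : ℤ) a = a := by
  rw [prOf_nat]
  exact decompose_of_mem_same 𝒜 ha

lemma prOf_mem (n : ℕ) (a : A) : prOf 𝒜 (n : ℤ) a ∈ 𝒜 n := by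
  rw [prOf_nat]
  exact SetLike.coe_mem _

lemma prOf_iff (n : ℕ) (a : A) : prOf 𝒜 (n : ℤ) a = a ↔ a ∈ 𝒜 n :=
  ⟨fun h => h ▸ prOf_mem 𝒜 n a, prOf_of_mem 𝒜⟩

lemma prOf_range (n : ℕ) : LinearMap.range (prOf 𝒜 (n : ℤ)) = 𝒜 n := by
  ext a
  constructor
  · rintro ⟨b, rfl⟩
    exact prOf_mem 𝒜 n b
  · intro h
    exact ⟨a, prOf_of_mem 𝒜 h⟩

/-- the grading -/
noncomputable def gaOf (s m : ℕ) (h0 : ∀ a ∈ 𝒜 0, ∃ c : k, a = algebraMap k A c)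
    (htop : ∀ i, s < i → 𝒜 i = ⊥) (hgap : ∀ i, 0 < i → i < m → 𝒜 i = ⊥) : GA k A s m where
  pr := prOf 𝒜
  same i x := by
    by_cases hi : i < 0
    · rw [prOf_neg 𝒜 i hi]; rfl
    · obtain ⟨n, rfl⟩ : ∃ n : ℕ, i = n := ⟨i.toNat, by omega⟩
      exact prOf_of_mem 𝒜 (prOf_mem 𝒜 n x)
  diff i j x hij := by
    by_cases hj : j < 0
    · rw [prOf_neg 𝒜 j hj, LinearMap.zero_apply, map_zero]
    by_cases hi : i < 0
    · rw [prOf_neg 𝒜 i hi]; rfl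
    obtain ⟨n, rfl⟩ : ∃ n : ℕ, i = n := ⟨i.toNat, by omega⟩
    obtain ⟨l, rfl⟩ : ∃ l : ℕ, j = l := ⟨j.toNat, by omega⟩
    rw [prOf_nat 𝒜 n]
    exact decompose_of_mem_ne 𝒜 (prOf_mem 𝒜 l x) (by omega)
  sep x hx := by
    classical
    have h : decompose 𝒜 x = 0 := by
      refine DFinsupp.ext fun n => Subtype.ext ?_
      rw [← prOf_nat 𝒜 n x, hx]
      rfl
    rw [← (decompose 𝒜).symm_apply_apply x, h, decompose_symm_zero]
  neg i hi := prOf_neg 𝒜 i hi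
  top i hi := by
    obtain ⟨n, rfl⟩ : ∃ n : ℕ, i = n := ⟨i.toNat, by omega⟩
    refine LinearMap.range_eq_bot.1 ?_
    rw [prOf_range 𝒜 n, htop n (by exact_mod_cast hi)]
  gap i hi him := by
    obtain ⟨n, rfl⟩ : ∃ n : ℕ, i = n := ⟨i.toNat, by omega⟩
    refine LinearMap.range_eq_bot.1 ?_
    rw [prOf_range 𝒜 n, hgap n (by exact_mod_cast hi) (by exact_mod_cast him)]
  one := prOf_of_mem 𝒜 (n := 0) SetLike.GradedOne.one_mem
  zero a := by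
    obtain ⟨c, hc⟩ := h0 _ (prOf_mem 𝒜 0 a)
    exact ⟨c, hc⟩
  mul i j a b := by
    by_cases hi : i < 0
    · rw [prOf_neg 𝒜 i hi, LinearMap.zero_apply, zero_mul, zero_mul, map_zero]
    obtain ⟨n, rfl⟩ : ∃ n : ℕ, i = n := ⟨i.toNat, by omega⟩
    by_cases hj : j < 0
    · rw [prOf_neg 𝒜 j hj, LinearMap.zero_apply, mul_zero]
      by_cases hij : (n : ℤ) + j < 0
      · rw [prOf_neg 𝒜 _ hij]; rfl
      · obtain ⟨l, hl⟩ : ∃ l : ℕ, (n : ℤ) + j = l := ⟨((n : ℤ) + j).toNat, by omega⟩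
        rw [hl, prOf_nat 𝒜 l]
        exact coe_decompose_mul_of_left_mem_of_not_le 𝒜 (prOf_mem 𝒜 n a) (by omega)
    · obtain ⟨l, rfl⟩ : ∃ l : ℕ, j = l := ⟨j.toNat, by omega⟩
      rw [← Nat.cast_add, prOf_nat 𝒜 (n + l), prOf_nat 𝒜 l]
      exact coe_decompose_mul_add_of_left_mem 𝒜 (prOf_mem 𝒜 n a)

end defs

end Pool.Agent.TGr
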