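import Pool.Agent.Lib_TGr.HomAdd
import Pool.Agent.Lib_TGr.Cover
import Pool.Agent.Tach.ExtPart

set_option autoImplicit false

/-! The Hilbert series of the dual of a module with vanishing `Ext`. -/

namespace Pool.Agent.TGr

open CategoryTheory

variable {k : Type} [Field k] {A : Type} [Ring A] [Algebra k A] [FiniteDimensional k A] {s m : ℕ}
  {gA : GA k A s m}

section basic

variable {M : Type} [AddCommGroup M] [Module A M] [Module k M] [IsScalarTower k A M]
  [FiniteDimensional k M]

/-- the defect -/
noncomputable def dl (g : GM gA M) : PowerSeries ℤ := hsd g * hs gA.toGr - hs g.toGr * hsr gA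

lemma dl_free {ι : Type} [Fintype ι] (d : ι → ℕ) : dl (freeGM gA d) = 0 := by
  unfold dl
  rw [hs_free, hsd_free, Finset.sum_mul, Finset.sum_mul, sub_eq_zero]
  exact Finset.sum_congr rfl fun i _ => by ring

lemma dl_low (g : GM gA M) (b : ℕ) (hb : ∀ j : ℤ, j < b → g.pr j = 0) :
    (PowerSeries.X : PowerSeries ℤ) ^ b ∣ dl g := by
  have hz : ∀ {X : Type} [AddCommGroup X] [Module k X], rk (0 : X →ₗ[k] X) = 0 := by
    intro X _ _
    unfold rk
    rw [LinearMap.range_zero, finrank_bot]
  have h1 : (PowerSeries.X : PowerSeries ℤ) ^ b ∣ hsd g := by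
    rw [PowerSeries.X_pow_dvd_iff]
    intro r hr
    rw [hsd, PowerSeries.coeff_mk, comp_low g b hb r (by exact_mod_cast hr), hz]
    rfl
  have h2 : (PowerSeries.X : PowerSeries ℤ) ^ b ∣ hs g.toGr := by
    rw [PowerSeries.X_pow_dvd_iff]
    intro r hr
    rw [hs, PowerSeries.coeff_mk, hb r (by exact_mod_cast hr), hz]
    rfl
  exact dvd_sub (h1.mul_right _) (h2.mul_right _)

end basic

/-- The defect vanishes to high order. -/
theorem dl_dvd [CategoryTheory.HasExt.{1} (ModuleCat.{0} A)] (n : ℕ) :
    ∀ (M : Type) [AddCommGroup M] [Module A M] [Module k M] [IsScalarTower k A M]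
      [FiniteDimensional k M] (g : GM gA M) (b : ℕ), (∀ j : ℤ, j < b → g.pr j = 0) →
      (∀ i : ℕ, 1 ≤ i → i ≤ n → Subsingleton
        (CategoryTheory.Abelian.Ext.{1} (ModuleCat.of A M) (ModuleCat.of A A) i)) →
      (PowerSeries.X : PowerSeries ℤ) ^ (b + n * m) ∣ dl g := by
  induction n with
  | zero =>
    intro M _ _ _ _ _ g b hb _
    rw [zero_mul, add_zero]
    exact dl_low g b hb
  | succ n ih =>
    intro M _ _ _ _ _ g b hb hE
    obtain ⟨N, d, x, hx, hsur, hker⟩ := exists_cover g b hb
    let f : (Fin N → A) →ₗ[A] M := Fintype.linearCombination A x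
    have hf : ∀ a, f a = ∑ i, a i • x i := fun a => Fintype.linearCombination_apply A x a
    have hgr : ∀ i a, f ((freeGM gA d).pr i a) = g.pr i (f a) := by
      intro i a
      rw [hf, hf, pr_lincomb g d x hx]
    have hfs : Function.Surjective f := fun y => by
      obtain ⟨a, ha⟩ := hsur y
      exact ⟨a, by rw [hf, ha]⟩
    have hexact : Function.Exact (LinearMap.ker f).subtype f := by
      intro y
      constructor
      · intro hy
        exact ⟨⟨y, hy⟩, rfl⟩
      · rintro ⟨y, rfl⟩
        exact y.2
    have hext : ∀ φ : LinearMap.ker f →ₗ[A] A, ∃ ψ : (Fin N → A) →ₗ[A] A, ∀ x, ψ x.1 = φ x := by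
      intro φ
      exact Pool.Agent.Tach.ext_extend (LinearMap.ker f).subtype f Subtype.val_injective hfs hexact
        (hE 1 le_rfl (by omega)) φ
    have hK := ih (LinearMap.ker f) (kerGM (freeGM gA d) g f hgr) (b + m) (by
      intro j hj
      refine LinearMap.ext fun y => Subtype.ext ?_
      rw [kerGM_pr]
      exact hker y.1 (by rw [← hf]; exact y.2) j (by push_cast at hj; exact hj)) (by
      intro i hi hin
      exact Pool.Agent.Tach.ext_shift (LinearMap.ker f).subtype f Subtype.val_injective hfs hexact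
        hi (hE (1 + i) (by omega) (by omega)))
    have h1 := hs_add (freeGM gA d) g f hgr hfs
    have h2 := hsd_add (freeGM gA d) g f hgr hfs hext
    have h3 := dl_free (gA := gA) d
    have h4 : dl g = - dl (kerGM (freeGM gA d) g f hgr) := by
      unfold dl at h3 ⊢
      rw [h1, h2] at h3
      linear_combination h3
    rw [h4, dvd_neg]
    have h5 : b + m + n * m = b + (n + 1) * m := by ring
    rw [← h5]
    exact hK

end Pool.Agent.TGr
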