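import Pool.Agent.Lib_TGr.Inv
import Pool.Agent.Tach.ExtPart

set_option autoImplicit false

/-! The second main step. -/

namespace Pool.Agent.TGr

open CategoryTheory

section aux

variable {k : Type} [Field k] {A : Type} [Ring A] [Algebra k A] [FiniteDimensional k A] {s m : ℕ}
  {gA : GA k A s m} {M : Type} [AddCommGroup M] [Module A M] [Module k M]

lemma stepB_pr_smul (g : GM gA M) (n : ℤ) (a : A) (x : M) :
    g.pr n (a • x) = ∑ i ∈ supp gA.toGr, gA.pr i a • g.pr (n - i) x := by
  conv_lhs => rw [← supp_total gA.toGr a]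
  rw [Finset.sum_smul, map_sum]
  refine Finset.sum_congr rfl fun i _ => ?_
  have h := g.smul i (n - i) a x
  rwa [add_sub_cancel] at h

lemma stepB_low (g : GM gA M) (d : ℤ) (y : M) (hy : g.pr d y = y) (a : A) (ha : gA.pr 0 a = 0)
    (j : ℤ) (hj : j < d + m ∨ j < d + 1) : g.pr j (a • y) = 0 := by
  rw [stepB_pr_smul]
  refine Finset.sum_eq_zero fun i _ => ?_
  by_cases h1 : j - i = d
  · have hi : gA.pr i a = 0 := by
      rcases lt_trichotomy i 0 with h | h | h
      · rw [gA.neg i h]; rfl
      · rw [h]; exact ha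
      · have : i < (m : ℤ) := by omega
        rw [gA.gap i h this]; rfl
    rw [hi, zero_smul]
  · rw [← hy, g.diff (j - i) d y h1, smul_zero]

lemma stepB_pos (g : GM gA M) (a : A) (x : M) (hx : g.pr 0 x = 0) : g.pr 0 (a • x) = 0 := by
  rw [stepB_pr_smul]
  refine Finset.sum_eq_zero fun i _ => ?_
  rcases lt_trichotomy i 0 with h | h | h
  · rw [gA.neg i h, LinearMap.zero_apply, zero_smul]
  · rw [h, sub_zero, hx, smul_zero]
  · rw [g.neg (0 - i) (by omega), LinearMap.zero_apply, smul_zero]

lemma stepB_zero (g : GM gA M) (t : M) (ht : g.pr 0 t = t) (a : A) :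
    g.pr 0 (a • t) = gA.pr 0 a • t := by
  rw [stepB_pr_smul, Finset.sum_eq_single 0]
  · rw [sub_zero, ht]
  · intro i _ hi
    rw [← ht, g.diff (0 - i) 0 t (by omega), smul_zero]
  · intro h
    rw [supp_out gA.toGr 0 h, LinearMap.zero_apply, zero_smul]

/-- The submodule of the elements without component of degree `0`. -/
def stepB_plus (g : GM gA M) : Submodule A M where
  carrier := {x | g.pr 0 x = 0}
  zero_mem' := map_zero _
  add_mem' := by
    intro x y hx hy
    simp only [Set.mem_setOf_eq] at *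
    rw [map_add, hx, hy, add_zero]
  smul_mem' := fun a x hx => stepB_pos g a x hx

lemma stepB_mem_plus (g : GM gA M) (x : M) : x ∈ stepB_plus g ↔ g.pr 0 x = 0 := Iff.rfl

end aux

variable {k : Type} [Field k] {A : Type} [Ring A] [Algebra k A] [FiniteDimensional k A] {s m : ℕ}
  {gA : GA k A s m} {M : Type} [AddCommGroup M] [Module A M] [Module k M] [IsScalarTower k A M]
  (e : M ≃ₗ[k] Module.Dual k A) (he : ∀ (a : A) (m : M) (x : A), e (a • m) x = e m (x * a))

include he in
/-- Let `w` be as in `exists_w`, and `y : M` homogeneous of degree `s - c` with `e y v ≠ 0`. For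
`a` without component of degree `0` all components of `a • y` have degree at least `s - c + m`,
they are in `A • t` by `hZ`, and `w (b • a • y) = b * w (a • y)` by `w_linear`. Let `M₊` be the
submodule of the `x` with `g.pr 0 x = 0`, `L` the kernel of `A × M₊ → M`, `(a, x) ↦ a • t + x`
(surjective: elements of degree `0` are in `A • t` by `h0`); for `(a, x) ∈ L` the component of
degree `0` of `a` is zero, and
`(a, x) ↦ w (a • y)` is linear on `L`. Extend it to `Θ` (`Tach.ext_extend`) and put
`u = Θ (1, 0)`. As `(v, 0) ∈ L`, `v * u = w (v • y)`, so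
`(v * u) • t = v • y`, and evaluating `e` at `1` gives `e t (v * u) = e y v`, but the left side is
zero. -/
theorem stepB [CategoryTheory.HasExt.{1} (ModuleCat.{0} A)] (g : GM gA M)
    (hg : ∀ (n : ℤ) (x : M) (a : A), e (g.pr n x) a = e x (gA.pr (s - n) a))
    (t : M) (ht : g.pr 0 t = t) (ht0 : t ≠ 0)
    (h0 : ∀ y : M, g.pr 0 y = y → ∃ a : A, a • t = y)
    (hE : Subsingleton (CategoryTheory.Abelian.Ext.{1} (ModuleCat.of A M) (ModuleCat.of A A) 1))
    (p c : ℕ) (hc : 1 ≤ c) (hpc : p + c < s + 2 * m)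
    (hN : ∀ i : ℤ, p < i → ∀ x : A, gA.pr i x = x → x • t = 0 → x = 0)
    (hZ : ∀ n : ℤ, s - c < n → ∀ y : M, g.pr n y = y → ∃ a : A, a • t = y)
    (v : A) (hv : gA.pr c v = v) (hv0 : v ≠ 0) (hvt : v • t = 0) (hvr : ∀ a, e t (v * a) = 0) :
    False := by
  haveI : FiniteDimensional k M := Module.Finite.equiv e.symm
  obtain ⟨w, hw, hwt, -⟩ := exists_w g t ht
  -- the element `y`
  obtain ⟨y, hy, hyv⟩ : ∃ y : M, g.pr ((s : ℤ) - c) y = y ∧ e y v ≠ 0 := by
    obtain ⟨φ, hφ⟩ : ∃ φ : Module.Dual k A, φ v ≠ 0 := by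
      by_contra hcon
      push Not at hcon
      exact hv0 ((Module.forall_dual_apply_eq_zero_iff k v).1 hcon)
    refine ⟨g.pr ((s : ℤ) - c) (e.symm φ), g.same _ _, ?_⟩
    rw [hg, sub_sub_cancel, hv, LinearEquiv.apply_symm_apply]
    exact hφ
  -- components of `a • y`
  have hcomp : ∀ a : A, gA.pr 0 a = 0 → ∀ j, ∃ b : A, b • t = g.pr j (a • y) := by
    intro a ha j
    by_cases hj : j < (s : ℤ) - c + 1
    · exact ⟨0, by rw [zero_smul, stepB_low g _ y hy a ha j (Or.inr hj)]⟩
    · exact hZ j (by omega) _ (g.same j _)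
  have hlin : ∀ a : A, gA.pr 0 a = 0 → ∀ b : A, w (b • a • y) = b * w (a • y) := by
    intro a ha b
    refine w_linear g t w hw hwt p hN ((s : ℤ) - c + m) (by omega) (a • y) (hcomp a ha) ?_ b
    intro j hj
    exact stepB_low g _ y hy a ha j (Or.inl hj)
  -- the module `L`
  let f : (A × stepB_plus g) →ₗ[A] M :=
    (LinearMap.toSpanSingleton A M t).coprod (stepB_plus g).subtype
  have hf : ∀ z : A × stepB_plus g, f z = z.1 • t + (z.2 : M) := fun z => rfl
  have hfs : Function.Surjective f := by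
    intro z
    obtain ⟨a, ha⟩ := h0 (g.pr 0 z) (g.same 0 z)
    refine ⟨(a, ⟨z - g.pr 0 z, ?_⟩), ?_⟩
    · rw [stepB_mem_plus, map_sub, g.same, sub_self]
    · rw [hf]
      simp only [ha]
      abel
  have hker : ∀ z : A × stepB_plus g, f z = 0 → gA.pr 0 z.1 = 0 := by
    intro z hz
    rw [hf] at hz
    have h1 := congrArg (g.pr 0) hz
    rw [map_add, map_zero, stepB_zero g t ht, (stepB_mem_plus g _).1 z.2.2, add_zero] at h1
    obtain ⟨r, hr⟩ := gA.zero z.1
    rw [hr] at h1 ⊢
    rw [algebraMap_smul] at h1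
    rcases smul_eq_zero.1 h1 with h | h
    · rw [h, map_zero]
    · exact absurd h ht0
  let φ : LinearMap.ker f →ₗ[A] A :=
    { toFun := fun z => w (z.1.1 • y)
      map_add' := by
        intro z z'
        simp only [Submodule.coe_add, Prod.fst_add, add_smul, map_add]
      map_smul' := by
        intro b z
        simp only [Submodule.coe_smul, Prod.smul_fst, smul_eq_mul, mul_smul, RingHom.id_apply]
        exact hlin _ (hker z.1 z.2) b }
  obtain ⟨Θ, hΘ⟩ := Tach.ext_extend (LinearMap.ker f).subtype f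
    (Submodule.injective_subtype _) hfs (by
      intro z
      simp only [Submodule.subtype_apply, Set.mem_range, Subtype.exists, LinearMap.mem_ker,
        exists_prop, exists_eq_right]) hE φ
  have hvL : f (v, 0) = 0 := by
    rw [hf]
    simp only [hvt, ZeroMemClass.coe_zero, add_zero]
  have h1 : v * Θ (1, 0) = w (v • y) := by
    have h2 := hΘ ⟨(v, 0), hvL⟩
    have h3 : Θ (v, 0) = v * Θ (1, 0) := by
      rw [← smul_eq_mul, ← map_smul]
      simp
    rw [← h3]
    exact h2
  have hvc : gA.pr 0 v = 0 := by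
    rw [← hv]
    exact gA.diff 0 c v (by omega)
  have h2 : (v * Θ (1, 0)) • t = v • y := by
    rw [h1]
    have h3 : ∃ a : A, a • t = v • y := by
      rw [← supp_total g.toGr (v • y)]
      choose b hb using hcomp v hvc
      refine ⟨∑ j ∈ supp g.toGr, b j, ?_⟩
      rw [Finset.sum_smul]
      exact Finset.sum_congr rfl fun j _ => hb j
    obtain ⟨a, ha⟩ := h3
    rw [← ha, hwt]
  have h3 : e ((v * Θ (1, 0)) • t) 1 = e (v • y) 1 := by rw [h2]
  rw [he, he, one_mul, one_mul, hvr] at h3
  exact hyv h3.symm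

end Pool.Agent.TGr
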