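import Pool.Agent.Lib_TGr.StepB

set_option autoImplicit false

/-! Generalisation of `stepB`: the second step for an arbitrary graded module `X`. -/

namespace Pool.Agent.TGr

open CategoryTheory

section aux

variable {k : Type} [Field k] {A : Type} [Ring A] [Algebra k A] [FiniteDimensional k A] {s m : ℕ}
  {gA : GA k A s m} {X : Type} [AddCommGroup X] [Module A X] [Module k X] [IsScalarTower k A X]

/-- The component of lowest degree of `a • x`. -/
lemma stepC0_bot (gX : GM gA X) (b : ℤ) (hb : ∀ j, j < b → gX.pr j = 0) (a : A) (x : X) :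
    gX.pr b (a • x) = gA.pr 0 a • gX.pr b x := by
  rw [stepB_pr_smul, Finset.sum_eq_single 0]
  · rw [sub_zero]
  · intro i _ hi
    rcases lt_or_gt_of_ne hi with h | h
    · rw [gA.neg i h, LinearMap.zero_apply, zero_smul]
    · rw [hb (b - i) (by omega), LinearMap.zero_apply, smul_zero]
  · intro h
    rw [supp_out gA.toGr 0 h, LinearMap.zero_apply, zero_smul]

/-- The submodule of the elements on whose lowest component the functional `l` vanishes. -/
def stepC0_sub (gX : GM gA X) (b : ℤ) (hb : ∀ j, j < b → gX.pr j = 0) (l : X →ₗ[k] k) :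
    Submodule A X where
  carrier := {x | l (gX.pr b x) = 0}
  zero_mem' := by
    simp only [Set.mem_setOf_eq, map_zero]
  add_mem' := by
    intro x y hx hy
    simp only [Set.mem_setOf_eq] at *
    rw [map_add, map_add, hx, hy, add_zero]
  smul_mem' := by
    intro a x hx
    simp only [Set.mem_setOf_eq] at *
    obtain ⟨r, hr⟩ := gA.zero a
    rw [stepC0_bot gX b hb, hr, algebraMap_smul, map_smul, hx, smul_zero]

lemma stepC0_mem_sub (gX : GM gA X) (b : ℤ) (hb : ∀ j, j < b → gX.pr j = 0) (l : X →ₗ[k] k)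
    (x : X) : x ∈ stepC0_sub gX b hb l ↔ l (gX.pr b x) = 0 := Iff.rfl

end aux

variable {k : Type} [Field k] {A : Type} [Ring A] [Algebra k A] [FiniteDimensional k A] {s m : ℕ}
  {gA : GA k A s m} {M : Type} [AddCommGroup M] [Module A M] [Module k M] [IsScalarTower k A M]
  (e : M ≃ₗ[k] Module.Dual k A) (he : ∀ (a : A) (m : M) (x : A), e (a • m) x = e m (x * a))

include he in
/-- Same proof as `stepB` with `X` in place of `M` as the module whose `Ext` vanishes (`stepB` is
the case `X = M`, `b = 0`, `n = t`). `w` and `y` as there, `w (b • a • y) = b * w (a • y)` for `a`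
without component of degree `0`. Choose a functional `l` on `X` with `l n = 1`, and let `X'` be the
submodule of the `x` with `l (gX.pr b x) = 0`; it is a submodule because `gX.pr b (a • x)` is the
product of the scalar `gA.pr 0 a` with `gX.pr b x` (`X` has no degrees below `b`, `A` none below
`0`). The map `A × X' → X`, `(a, x) ↦ a • n + x`, is surjective, and
`gA.pr 0 a = 0` for `(a, x)` in its kernel `L`. Extend `L → A`, `(a, x) ↦ w (a • y)` to
`Θ : A × X' → A`. As `(v, 0) ∈ L`, `v * Θ (1, 0) = w (v • y)`; multiply with `t` and evaluate at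
`1` as in `stepB`. -/
theorem stepC0 [CategoryTheory.HasExt.{1} (ModuleCat.{0} A)] (g : GM gA M)
    (hg : ∀ (n : ℤ) (x : M) (a : A), e (g.pr n x) a = e x (gA.pr (s - n) a))
    (t : M) (ht : g.pr 0 t = t)
    (p c : ℕ) (hc : 1 ≤ c) (hpc : p + c < s + 2 * m)
    (hN : ∀ i : ℤ, p < i → ∀ x : A, gA.pr i x = x → x • t = 0 → x = 0)
    (hZ : ∀ n : ℤ, s - c < n → ∀ y : M, g.pr n y = y → ∃ a : A, a • t = y)
    (v : A) (hv : gA.pr c v = v) (hv0 : v ≠ 0) (hvr : ∀ a, e t (v * a) = 0)
    {X : Type} [AddCommGroup X] [Module A X] [Module k X] [IsScalarTower k A X]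
    [FiniteDimensional k X] (gX : GM gA X) (b : ℤ) (hb : ∀ j, j < b → gX.pr j = 0)
    (hX : Subsingleton (CategoryTheory.Abelian.Ext.{1} (ModuleCat.of A X) (ModuleCat.of A A) 1))
    (n : X) (hn : gX.pr b n = n) (hn0 : n ≠ 0) (hvn : v • n = 0) :
    False := by
  haveI : FiniteDimensional k M := Module.Finite.equiv e.symm
  obtain ⟨w, hw, hwt, -⟩ := exists_w g t ht
  -- the element `y`
  obtain ⟨y, hy, hyv⟩ : ∃ y : M, g.pr ((s : ℤ) - c) y = y ∧ e y v ≠ 0 := by
    obtain ⟨φ, hφ⟩ : ∃ φ : Module.Dual k A, φ v ≠ 0 := by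
      by_contra hcon
      push Not at hcon
      exact hv0 ((Module.forall_dual_apply_eq_zero_iff k v).1 hcon)
    refine ⟨g.pr ((s : ℤ) - c) (e.symm φ), g.same _ _, ?_⟩
    rw [hg, sub_sub_cancel, hv, LinearEquiv.apply_symm_apply]
    exact hφ
  -- components of `a • y`
  have hcomp : ∀ a : A, gA.pr 0 a = 0 → ∀ j, ∃ b : A, b • t = g.pr j (a • y) := by
    intro a ha j
    by_cases hj : j < (s : ℤ) - c + 1
    · exact ⟨0, by rw [zero_smul, stepB_low g _ y hy a ha j (Or.inr hj)]⟩
    · exact hZ j (by omega) _ (g.same j _)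
  have hlin : ∀ a : A, gA.pr 0 a = 0 → ∀ b : A, w (b • a • y) = b * w (a • y) := by
    intro a ha b
    refine w_linear g t w hw hwt p hN ((s : ℤ) - c + m) (by omega) (a • y) (hcomp a ha) ?_ b
    intro j hj
    exact stepB_low g _ y hy a ha j (Or.inl hj)
  -- the functional `l`
  obtain ⟨l, hl⟩ : ∃ l : X →ₗ[k] k, l n = 1 := by
    obtain ⟨φ, hφ⟩ : ∃ φ : Module.Dual k X, φ n ≠ 0 := by
      by_contra hcon
      push Not at hcon
      exact hn0 ((Module.forall_dual_apply_eq_zero_iff k n).1 hcon)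
    exact ⟨(φ n)⁻¹ • φ, by rw [LinearMap.smul_apply, smul_eq_mul, inv_mul_cancel₀ hφ]⟩
  -- the module `L`
  let f : (A × stepC0_sub gX b hb l) →ₗ[A] X :=
    (LinearMap.toSpanSingleton A X n).coprod (stepC0_sub gX b hb l).subtype
  have hf : ∀ z : A × stepC0_sub gX b hb l, f z = z.1 • n + (z.2 : X) := fun z => rfl
  have hfs : Function.Surjective f := by
    intro z
    refine ⟨(algebraMap k A (l (gX.pr b z)), ⟨z - l (gX.pr b z) • n, ?_⟩), ?_⟩
    · rw [stepC0_mem_sub, map_sub, map_sub, map_smul, hn, map_smul, hl, smul_eq_mul, mul_one,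
        sub_self]
    · rw [hf]
      simp only [algebraMap_smul]
      abel
  have hker : ∀ z : A × stepC0_sub gX b hb l, f z = 0 → gA.pr 0 z.1 = 0 := by
    intro z hz
    rw [hf] at hz
    have h1 := congrArg (fun x => l (gX.pr b x)) hz
    simp only [map_add, map_zero] at h1
    rw [stepC0_bot gX b hb, hn, (stepC0_mem_sub gX b hb l _).1 z.2.2, add_zero] at h1
    obtain ⟨r, hr⟩ := gA.zero z.1
    rw [hr] at h1 ⊢
    rw [algebraMap_smul, map_smul, hl, smul_eq_mul, mul_one] at h1
    rw [h1, map_zero]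
  let φ : LinearMap.ker f →ₗ[A] A :=
    { toFun := fun z => w (z.1.1 • y)
      map_add' := by
        intro z z'
        simp only [Submodule.coe_add, Prod.fst_add, add_smul, map_add]
      map_smul' := by
        intro b z
        simp only [Submodule.coe_smul, Prod.smul_fst, smul_eq_mul, mul_smul, RingHom.id_apply]
        exact hlin _ (hker z.1 z.2) b }
  obtain ⟨Θ, hΘ⟩ := Tach.ext_extend (LinearMap.ker f).subtype f
    (Submodule.injective_subtype _) hfs (by
      intro z
      simp only [Submodule.subtype_apply, Set.mem_range, Subtype.exists, LinearMap.mem_ker,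
        exists_prop, exists_eq_right]) hX φ
  have hvL : f (v, 0) = 0 := by
    rw [hf]
    simp only [hvn, ZeroMemClass.coe_zero, add_zero]
  have h1 : v * Θ (1, 0) = w (v • y) := by
    have h2 := hΘ ⟨(v, 0), hvL⟩
    have h3 : Θ (v, 0) = v * Θ (1, 0) := by
      rw [← smul_eq_mul, ← map_smul]
      simp
    rw [← h3]
    exact h2
  have hvc : gA.pr 0 v = 0 := by
    rw [← hv]
    exact gA.diff 0 c v (by omega)
  have h2 : (v * Θ (1, 0)) • t = v • y := by
    rw [h1]
    have h3 : ∃ a : A, a • t = v • y := by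
      rw [← supp_total g.toGr (v • y)]
      choose a ha using hcomp v hvc
      refine ⟨∑ j ∈ supp g.toGr, a j, ?_⟩
      rw [Finset.sum_smul]
      exact Finset.sum_congr rfl fun j _ => ha j
    obtain ⟨a, ha⟩ := h3
    rw [← ha, hwt]
  have h3 : e ((v * Θ (1, 0)) • t) 1 = e (v • y) 1 := by rw [h2]
  rw [he, he, one_mul, one_mul, hvr] at h3
  exact hyv h3.symm

end Pool.Agent.TGr
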